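import Pool.Agent.KST.Unit
import Pool.Agent.KCV.NP

/-! Satisfiability of Horn formulas is in P. -/

namespace Pool.Agent.KST

open Finset Pool.Agent.PolyTime Pool.Agent.KE Pool.Agent.KCV
open Pool.Agent.KMQ (toNat_ne getD_mapRange)

/-- the length of the formula stored in the word -/
def hn (w : List Bool) : ℕ := w.length / 3 - 1

/-- the sign of a literal, as a number -/
def sgN (w : List Bool) (q : ℕ) : ℕ := ltN w (hn w) (q * (len (hn w) + 1))

/-- the variable of a literal -/
def vaN (w : List Bool) (q : ℕ) : ℕ := ptrN w (hn w) (q * (len (hn w) + 1) + 1)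

/-- the value of a variable, stored behind the formula -/
def stV (w : List Bool) (v : ℕ) : ℕ := (w.getD (hn w + v) false).toNat

/-- the number of clauses -/
def ncN (w : List Bool) : ℕ := hn w / (3 * (len (hn w) + 1))

/-- a clause implies that the variable is true -/
def TrigN (w : List Bool) (v : ℕ) : Prop :=
  ∃ c < ncN w, ∃ j < 3, (sgN w (3 * c + j) = 1 ∧ vaN w (3 * c + j) = v) ∧
    ∀ j' < 3, ¬ (sgN w (3 * c + j') = 0 ∧ stV w (vaN w (3 * c + j')) = 0)

/-- the formula is a Horn formula -/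
def HornN (w : List Bool) : Prop :=
  ∀ c < ncN w, ∀ j < 3, ∀ j' < 3, ¬ ((sgN w (3 * c + j) = 1 ∧ sgN w (3 * c + j') = 1) ∧
    ¬ vaN w (3 * c + j) = vaN w (3 * c + j'))

/-- the stored assignment satisfies the formula -/
def SatsN (w : List Bool) : Prop :=
  ∀ c < ncN w, ∃ j < 3, stV w (vaN w (3 * c + j)) = sgN w (3 * c + j)

section pf
variable {α : Type} [Ctx α]

theorem pf_hn : PF (fun (w : List Bool) (_ : α) => hn w) := (PF.len.div (PF.const 3)).sub (PF.const 1)

theorem pf_lh : PF (fun (w : List Bool) (_ : α) => len (hn w)) := pf_len pf_hn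

theorem pf_sgN {q : List Bool → α → ℕ} (hq : PF q) : PF (fun w a => sgN w (q w a)) :=
  pf_ltN pf_hn (hq.mul (pf_lh.add (PF.const 1)))

theorem pf_vaN {q : List Bool → α → ℕ} (hq : PF q) : PF (fun w a => vaN w (q w a)) :=
  pf_ptrN pf_hn ((hq.mul (pf_lh.add (PF.const 1))).add (PF.const 1))

theorem pf_stV {v : List Bool → α → ℕ} (hv : PF v) : PF (fun w a => stV w (v w a)) :=
  (pf_hn.add hv).inp

theorem pf_ncN : PF (fun (w : List Bool) (_ : α) => ncN w) :=
  pf_hn.div ((PF.const 3).mul (pf_lh.add (PF.const 1)))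

theorem pd_TrigN {v : List Bool → α → ℕ} (hv : PF v) : PD (fun w a => TrigN w (v w a)) := by
  unfold TrigN
  refine PD.exists_lt (P := fun (w : List Bool) (t : α × ℕ) => ∃ j < 3,
    (sgN w (3 * t.2 + j) = 1 ∧ vaN w (3 * t.2 + j) = v w t.1) ∧
    ∀ j' < 3, ¬ (sgN w (3 * t.2 + j') = 0 ∧ stV w (vaN w (3 * t.2 + j')) = 0)) pf_ncN ?_
  refine PD.exists_lt (P := fun (w : List Bool) (t : (α × ℕ) × ℕ) =>
    (sgN w (3 * t.1.2 + t.2) = 1 ∧ vaN w (3 * t.1.2 + t.2) = v w t.1.1) ∧
    ∀ j' < 3, ¬ (sgN w (3 * t.1.2 + j') = 0 ∧ stV w (vaN w (3 * t.1.2 + j')) = 0)) (PF.const 3) ?_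
  have hq : PF (fun (w : List Bool) (t : (α × ℕ) × ℕ) => 3 * t.1.2 + t.2) :=
    ((PF.const 3).mul PF.snd.fst).add PF.snd
  refine ((PD.eq (pf_sgN hq) (PF.const 1)).and (PD.eq (pf_vaN hq) hv.fst.fst)).and ?_
  refine PD.forall_lt (P := fun (w : List Bool) (t : ((α × ℕ) × ℕ) × ℕ) =>
    ¬ (sgN w (3 * t.1.1.2 + t.2) = 0 ∧ stV w (vaN w (3 * t.1.1.2 + t.2)) = 0)) (PF.const 3) ?_
  have hq' : PF (fun (w : List Bool) (t : ((α × ℕ) × ℕ) × ℕ) => 3 * t.1.1.2 + t.2) :=
    ((PF.const 3).mul PF.snd.fst.fst).add PF.snd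
  exact ((PD.eq (pf_sgN hq') (PF.const 0)).and (PD.eq (pf_stV (pf_vaN hq')) (PF.const 0))).not

theorem pd_HornN : PD (fun (w : List Bool) (_ : α) => HornN w) := by
  unfold HornN
  refine PD.forall_lt (P := fun (w : List Bool) (t : α × ℕ) => ∀ j < 3, ∀ j' < 3,
    ¬ ((sgN w (3 * t.2 + j) = 1 ∧ sgN w (3 * t.2 + j') = 1) ∧
      ¬ vaN w (3 * t.2 + j) = vaN w (3 * t.2 + j'))) pf_ncN ?_
  refine PD.forall_lt (P := fun (w : List Bool) (t : (α × ℕ) × ℕ) => ∀ j' < 3,
    ¬ ((sgN w (3 * t.1.2 + t.2) = 1 ∧ sgN w (3 * t.1.2 + j') = 1) ∧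
      ¬ vaN w (3 * t.1.2 + t.2) = vaN w (3 * t.1.2 + j'))) (PF.const 3) ?_
  refine PD.forall_lt (P := fun (w : List Bool) (t : ((α × ℕ) × ℕ) × ℕ) =>
    ¬ ((sgN w (3 * t.1.1.2 + t.1.2) = 1 ∧ sgN w (3 * t.1.1.2 + t.2) = 1) ∧
      ¬ vaN w (3 * t.1.1.2 + t.1.2) = vaN w (3 * t.1.1.2 + t.2))) (PF.const 3) ?_
  have h1 : PF (fun (w : List Bool) (t : ((α × ℕ) × ℕ) × ℕ) => 3 * t.1.1.2 + t.1.2) :=
    ((PF.const 3).mul PF.snd.fst.fst).add PF.snd.fst
  have h2 : PF (fun (w : List Bool) (t : ((α × ℕ) × ℕ) × ℕ) => 3 * t.1.1.2 + t.2) :=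
    ((PF.const 3).mul PF.snd.fst.fst).add PF.snd
  exact (((PD.eq (pf_sgN h1) (PF.const 1)).and (PD.eq (pf_sgN h2) (PF.const 1))).and
    (PD.eq (pf_vaN h1) (pf_vaN h2)).not).not

theorem pd_SatsN : PD (fun (w : List Bool) (_ : α) => SatsN w) := by
  unfold SatsN
  refine PD.forall_lt (P := fun (w : List Bool) (t : α × ℕ) => ∃ j < 3,
    stV w (vaN w (3 * t.2 + j)) = sgN w (3 * t.2 + j)) pf_ncN ?_
  refine PD.exists_lt (P := fun (w : List Bool) (t : (α × ℕ) × ℕ) =>
    stV w (vaN w (3 * t.1.2 + t.2)) = sgN w (3 * t.1.2 + t.2)) (PF.const 3) ?_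
  have hq : PF (fun (w : List Bool) (t : (α × ℕ) × ℕ) => 3 * t.1.2 + t.2) :=
    ((PF.const 3).mul PF.snd.fst).add PF.snd
  exact PD.eq (pf_stV (pf_vaN hq)) (pf_sgN hq)

end pf

open Classical in
/-- the number that is the new letter `p` -/
noncomputable def srN (w : List Bool) (p : ℕ) : ℕ :=
  if p < hn w then (w.getD p false).toNat
  else if (w.getD p false).toNat ≠ 0 ∨ TrigN w (p - hn w) then 1 else 0

/-- one step -/
noncomputable def srW (w : List Bool) : List Bool := (List.range w.length).map fun p => decide (srN w p ≠ 0)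

/-- the letters of the first word -/
def siN (y : List Bool) (p : ℕ) : ℕ := if p < y.length then (y.getD p false).toNat else 0

/-- the first word -/
def siW (y : List Bool) : List Bool :=
  (List.range (3 * y.length + 3)).map fun p => decide (siN y p ≠ 0)

open Classical in
/-- the output -/
noncomputable def soN (w : List Bool) : ℕ := if HornN w ∧ SatsN w then 1 else 0

/-- the output word -/
noncomputable def soW (w : List Bool) : List Bool := (List.range 1).map fun _ => decide (soN w ≠ 0)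

theorem pb_sr : PFBits srW := by
  classical
  refine ⟨fun y => y.length, srN, PF.len, ?_, fun x => rfl⟩
  unfold srN
  refine PF.ite (P := fun (w : List Bool) (t : Unit × ℕ) => t.2 < hn w) (PD.lt PF.snd pf_hn) PF.snd.inp ?_
  exact PF.ite (P := fun (w : List Bool) (t : Unit × ℕ) => (w.getD t.2 false).toNat ≠ 0 ∨
    TrigN w (t.2 - hn w)) (PF.snd.inp.ne_zero.or (pd_TrigN (PF.snd.sub pf_hn))) (PF.const 1) (PF.const 0)

theorem pb_si : PFBits siW := by
  refine ⟨fun y => 3 * y.length + 3, siN, ((PF.const 3).mul PF.len).add (PF.const 3), ?_, fun x => rfl⟩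
  unfold siN
  exact PF.ite (P := fun (y : List Bool) (t : Unit × ℕ) => t.2 < y.length) (PD.lt PF.snd PF.len)
    PF.snd.inp (PF.const 0)

theorem pb_so : PFBits soW := by
  classical
  refine ⟨fun _ => 1, fun w _ => soN w, PF.const 1, ?_, fun x => rfl⟩
  unfold soN
  exact PF.ite (P := fun (w : List Bool) (_ : Unit × ℕ) => HornN w ∧ SatsN w) (pd_HornN.and pd_SatsN)
    (PF.const 1) (PF.const 0)

theorem length_srW (w : List Bool) : (srW w).length = w.length := by
  unfold srW
  simp

/-- the word contains the formula `y` and the values found in `t` rounds -/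
def InvH (y : List Bool) (a : ℕ → Bool) (w : List Bool) : Prop :=
  w.length = 3 * y.length + 3 ∧ (∀ p < y.length, w.getD p false = y.getD p false) ∧
    ∀ v < 2 * y.length + 2, w.getD (y.length + v) false = a v

section inv
variable {y w : List Bool} {a : ℕ → Bool} (h : InvH y a w)
include h

theorem hn_eq : hn w = y.length := by
  unfold hn
  rw [h.1]
  omega

theorem ncN_eq : ncN w = nc y.length := by
  unfold ncN nc
  rw [hn_eq h]

theorem sgN_eq {c j : ℕ} (hc : c < nc y.length) (hj : j < 3) :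
    sgN w (3 * c + j) = (sgn y (3 * c + j)).toNat := by
  unfold sgN sgn ltN lt
  rw [hn_eq h]
  have h1 := pos_lt (nc_fits (N := y.length) (q := 3 * c + j) (by omega)) (Nat.zero_le _)
  rw [add_zero] at h1
  rw [if_pos h1, h.2.1 _ h1]

theorem vaN_eq (q : ℕ) : vaN w q = var y q := by
  unfold vaN var
  rw [hn_eq h, ptrN_eq h.2.1]

theorem stV_eq (q : ℕ) : stV w (var y q) = (a (var y q)).toNat := by
  unfold stV
  have := ptr_le y (q * (len y.length + 1) + 1)
  rw [hn_eq h, h.2.2 _ (by unfold var; omega)]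

theorem trigN_iff (v : ℕ) : TrigN w v ↔ Trig y a v := by
  unfold TrigN Trig
  rw [ncN_eq h]
  refine exists_congr fun c => and_congr_right fun hc => exists_congr fun j => and_congr_right fun hj => ?_
  rw [sgN_eq h hc hj, vaN_eq h]
  refine and_congr (and_congr ?_ Iff.rfl) (forall_congr' fun j' => forall_congr' fun hj' => ?_)
  · cases sgn y (3 * c + j) <;> decide
  · rw [sgN_eq h hc hj', vaN_eq h, stV_eq h]
    cases sgn y (3 * c + j') <;> cases a (var y (3 * c + j')) <;> decide

theorem hornN_iff : HornN w ↔ Horn y := by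
  unfold HornN Horn
  rw [ncN_eq h]
  refine forall_congr' fun c => forall_congr' fun hc => forall_congr' fun j => forall_congr' fun hj =>
    forall_congr' fun j' => forall_congr' fun hj' => ?_
  rw [sgN_eq h hc hj, sgN_eq h hc hj', vaN_eq h, vaN_eq h]
  cases sgn y (3 * c + j) <;> cases sgn y (3 * c + j') <;> simp

theorem satsN_iff : SatsN w ↔ Sats y a := by
  unfold SatsN Sats
  rw [ncN_eq h]
  refine forall_congr' fun c => forall_congr' fun hc => exists_congr fun j => and_congr_right fun hj => ?_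
  rw [sgN_eq h hc hj, vaN_eq h, stV_eq h]
  cases sgn y (3 * c + j) <;> cases a (var y (3 * c + j)) <;> decide

theorem invH_step : InvH y (up y a) (srW w) := by
  classical
  obtain ⟨h1, h2, h3⟩ := id h
  refine ⟨by rw [length_srW, h1], fun p hp => ?_, fun v hv => ?_⟩
  · unfold srW
    rw [getD_mapRange _ _ (by rw [h1]; omega)]
    unfold srN
    rw [hn_eq h, if_pos hp, toNat_ne]
    exact h2 p hp
  · unfold srW
    rw [getD_mapRange _ _ (by rw [h1]; omega)]
    unfold srN
    rw [hn_eq h, if_neg (by omega), Nat.add_sub_cancel_left, h3 v hv]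
    have h4 : ((a v).toNat ≠ 0 ∨ TrigN w v) ↔ (a v = true ∨ Trig y a v) := by
      rw [trigN_iff h]
      refine or_congr ?_ Iff.rfl
      cases a v <;> decide
    unfold up
    by_cases h5 : a v = true ∨ Trig y a v
    · rw [if_pos (h4.2 h5)]
      simp [h5]
    · rw [if_neg (fun h6 => h5 (h4.1 h6))]
      simp [h5]

end inv

theorem invH_init (y : List Bool) : InvH y (ups y 0) (siW y) := by
  refine ⟨by unfold siW; simp, fun p hp => ?_, fun v hv => ?_⟩
  · unfold siW
    rw [getD_mapRange _ _ (by omega)]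
    unfold siN
    rw [if_pos hp, toNat_ne]
  · unfold siW
    rw [getD_mapRange _ _ (by omega)]
    unfold siN
    rw [if_neg (by omega)]
    rfl

theorem invH_iter (y : List Bool) (t : ℕ) : InvH y (ups y t) (srW^[t] (siW y)) := by
  induction t with
  | zero => exact invH_init y
  | succ t ih =>
    rw [Function.iterate_succ_apply', ups_succ]
    exact invH_step ih

/-- more rounds do not matter -/
theorem ups_more (y : List Bool) (s : ℕ) : ups y (2 ^ len y.length + s) = ups y (2 ^ len y.length) := by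
  induction s with
  | zero => rfl
  | succ s ih => rw [← add_assoc, ups_succ, ih, ← ups_succ, ups_fix]

open Classical in
/-- **Satisfiability of Horn formulas is in P.** -/
theorem inP_HornSat : Pool.Agent.KNL.InP HornSat := by
  have h1 : PC (fun w => srW^[w.length] w) :=
    PFBits.iterate pb_sr (fun x => (length_srW x).le) PF.len
  have h2 : PC (fun y => soW (srW^[(siW y).length] (siW y))) := pb_so.pc.comp (h1.comp pb_si.pc)
  refine ⟨fun y => decide (HornSat y), fun w => by simp, (h2.congr fun y => ?_).polyTime⟩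
  have hl0 : (siW y).length = 3 * y.length + 3 := (invH_init y).1
  rw [hl0]
  have hI := invH_iter y (3 * y.length + 3)
  obtain ⟨w, hw⟩ : ∃ w, w = srW^[3 * y.length + 3] (siW y) := ⟨_, rfl⟩
  rw [← hw] at hI ⊢
  have hV : 2 ^ len y.length ≤ 3 * y.length + 3 := by
    unfold len
    by_cases h0 : y.length = 0
    · rw [h0]
      norm_num
    · rw [pow_succ]
      have := Nat.pow_log_le_self 2 h0
      omega
  have h3 : soW w = [decide (soN w ≠ 0)] := rfl
  rw [h3]
  refine congrArg (fun b => [b]) (decide_eq_decide.2 ?_)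
  have h4 : soN w ≠ 0 ↔ HornN w ∧ SatsN w := by
    unfold soN
    split_ifs with h5
    · simp [h5]
    · simp [h5]
  rw [h4, hornN_iff hI, satsN_iff hI]
  unfold HornSat
  refine and_congr_right fun hy => ?_
  rw [horn_iff hy, ← ups_more y (3 * y.length + 3 - 2 ^ len y.length), Nat.add_sub_cancel' hV]

end Pool.Agent.KST
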