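import Pool.Agent.KST.Enc
import Pool.Agent.KCV.NP

/-! Satisfiability is in NP. -/

namespace Pool.Agent.KST

open Finset Pool.Agent.PolyTime Pool.Agent.KE Pool.Agent.NegLim Pool.Agent.NegLim.NPL Pool.Agent.KCV
open Pool.Agent.KMQ (toNat_ne getD_mapRange)
open Pool.Agent.KMR (pf_x pf_s pd_s polyTime_of_pd)

/-- the verifier -/
def VerF (y : List Bool) : Prop :=
  ∀ c < plen y / (3 * (len (plen y) + 1)), ∃ j < 3,
    (sbit y (ptrX y ((3 * c + j) * (len (plen y) + 1) + 1))).toNat =
      ltX y ((3 * c + j) * (len (plen y) + 1))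

theorem pd_VerF : PD (fun (y : List Bool) (_ : Unit) => VerF y) := by
  have hx : ∀ (β : Type) [Ctx β] (q : List Bool → β → ℕ), PF q → PF (fun y a => ltX y (q y a)) := by
    intro β _ q hq
    unfold ltX
    exact PF.ite (P := fun y a => q y a < plen y) (PD.lt hq pf_plen) (pf_x hq) (PF.const 0)
  have hp : ∀ (β : Type) [Ctx β] (q : List Bool → β → ℕ), PF q → PF (fun y a => ptrX y (q y a)) := by
    intro β _ q hq
    unfold ptrX
    exact PF.sum (F := fun (y : List Bool) (t : β × ℕ) => pw (plen y) t.2 * ltX y (q y t.1 + t.2))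
      (pf_len pf_plen) ((pf_pw pf_plen PF.snd).mul (hx _ _ (hq.fst.add PF.snd)))
  have hL : ∀ (β : Type) [Ctx β], PF (fun (y : List Bool) (_ : β) => len (plen y)) :=
    fun β _ => pf_len pf_plen
  refine PD.forall_lt (pf_plen.div ((PF.const 3).mul ((hL Unit).add (PF.const 1))))
    (P := fun (y : List Bool) (t : Unit × ℕ) => ∃ j < 3,
      (sbit y (ptrX y ((3 * t.2 + j) * (len (plen y) + 1) + 1))).toNat =
      ltX y ((3 * t.2 + j) * (len (plen y) + 1))) ?_
  refine PD.exists_lt (PF.const 3) (P := fun (y : List Bool) (t : (Unit × ℕ) × ℕ) =>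
      (sbit y (ptrX y ((3 * t.1.2 + t.2) * (len (plen y) + 1) + 1))).toNat =
      ltX y ((3 * t.1.2 + t.2) * (len (plen y) + 1))) ?_
  have hq : PF (fun (y : List Bool) (t : (Unit × ℕ) × ℕ) => (3 * t.1.2 + t.2) * (len (plen y) + 1)) :=
    (((PF.const 3).mul PF.snd.fst).add PF.snd).mul ((hL _).add (PF.const 1))
  exact PD.eq (pf_s (hp _ _ (hq.add (PF.const 1)))) (hx _ _ hq)

theorem verF_pair (x w : List Bool) : VerF (pairWord x w) ↔ Sats x fun v => w.getD v false := by
  unfold VerF Sats nc
  rw [plen_pair]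
  refine forall_congr' fun c => forall_congr' fun hc => exists_congr fun j => and_congr_right fun hj => ?_
  have h1 : (3 * c + j) * (len x.length + 1) < x.length := by
    have := pos_lt (nc_fits (N := x.length) (q := 3 * c + j) (by unfold nc; omega)) (Nat.zero_le _)
    rwa [add_zero] at this
  have e1 : ltX (pairWord x w) ((3 * c + j) * (len x.length + 1)) = (sgn x (3 * c + j)).toNat := by
    unfold ltX sgn
    rw [plen_pair, if_pos h1, xbit_pair _ _ _ h1]
    rfl
  rw [ptrX_pair, sbit_pair, e1]
  unfold var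
  simp only
  generalize w.getD (ptr x ((3 * c + j) * (len x.length + 1) + 1)) false = a
  generalize sgn x (3 * c + j) = b
  cases a <;> cases b <;> decide

open Classical in
/-- **Satisfiability is in NP.** -/
theorem inNP_Sat3 : InNP (fun y => decide (Sat3 y)) := by
  refine ⟨fun y => decide (VerF y), 6, polyTime_of_pd pd_VerF, fun x => ?_⟩
  rw [decide_eq_true_iff]
  unfold Sat3
  constructor
  · rintro ⟨a, ha⟩
    refine ⟨(List.range (2 * x.length + 2)).map a, ?_, ?_⟩
    · rw [List.length_map, List.length_range]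
      rcases Nat.lt_or_ge x.length 2 with h | h
      · interval_cases x.length <;> norm_num
      · have : 2 * x.length ≤ x.length ^ 6 := by
          calc 2 * x.length ≤ 2 ^ 5 * x.length := Nat.mul_le_mul_right _ (by norm_num)
            _ ≤ x.length ^ 5 * x.length := Nat.mul_le_mul_right _ (Nat.pow_le_pow_left h 5)
            _ = x.length ^ 6 := by ring
        omega
    · rw [decide_eq_true_iff, verF_pair]
      intro c hc
      obtain ⟨j, hj, h⟩ := ha c hc
      refine ⟨j, hj, ?_⟩
      have h1 : var x (3 * c + j) < 2 * x.length + 2 := by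
        have := ptr_le x ((3 * c + j) * (len x.length + 1) + 1)
        unfold var
        omega
      simp only
      rw [getD_mapRange _ a h1]
      exact h
  · rintro ⟨w, _, hw⟩
    rw [decide_eq_true_iff, verF_pair] at hw
    exact ⟨_, hw⟩

end Pool.Agent.KST
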