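import Pool.Agent.KST.Gad
import Pool.Agent.KH.Avg

/-! The words with the formula of the blocks. -/

namespace Pool.Agent.KST

open Pool.Agent.KCV Pool.Agent.KH

/-- a clause that is always satisfied -/
def dflt : Cl := ((true, 0), (false, 0), (true, 0))

theorem cs_dflt (x : ℕ → Bool) : cs x dflt := by
  unfold cs dflt
  simp only
  cases x 0 <;> simp

/-- clause `c` -/
def cla (h n mb : ℕ) (R : List Cl) (X : ℕ → ℕ → Bool) (c : ℕ) : Cl :=
  if c < 2 * (mb * n) then wcl h n (u0 h n) (w0 h) X c else R.getD (c - 2 * (mb * n)) dflt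

/-- literal `j` of a clause -/
def lit (C : Cl) (j : ℕ) : Li := if j = 0 then C.1 else if j = 1 then C.2.1 else C.2.2

/-- literal `q` -/
def LF (h n mb : ℕ) (R : List Cl) (X : ℕ → ℕ → Bool) (q : ℕ) : Li := lit (cla h n mb R X (q / 3)) (q % 3)

section
variable {h n mb : ℕ} {R : List Cl} {X : ℕ → ℕ → Bool}

theorem sa_iff (M : ℕ) (x : ℕ → Bool) : Sa M (LF h n mb R X) x ↔ ∀ c < M, cs x (cla h n mb R X c) := by
  unfold Sa
  refine forall_congr' fun c => forall_congr' fun _ => ?_
  have e : ∀ j < 3, LF h n mb R X (3 * c + j) = lit (cla h n mb R X c) j := by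
    intro j hj
    unfold LF
    rw [show (3 * c + j) / 3 = c by omega, show (3 * c + j) % 3 = j by omega]
  unfold cs
  constructor
  · rintro ⟨j, hj, h1⟩
    rw [e j hj] at h1
    obtain rfl | rfl | rfl : j = 0 ∨ j = 1 ∨ j = 2 := by omega
    · left; exact h1
    · right; left; exact h1
    · right; right; exact h1
  · rintro (h1 | h1 | h1)
    · exact ⟨0, by omega, by rw [e 0 (by omega)]; exact h1⟩
    · exact ⟨1, by omega, by rw [e 1 (by omega)]; exact h1⟩
    · exact ⟨2, by omega, by rw [e 2 (by omega)]; exact h1⟩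

theorem all_iff {M : ℕ} (hM : 2 * (mb * n) + R.length ≤ M) (x : ℕ → Bool) :
    (∀ c < M, cs x (cla h n mb R X c)) ↔
      (∀ c < 2 * (mb * n), cs x (wcl h n (u0 h n) (w0 h) X c)) ∧ ∀ C ∈ R, cs x C := by
  constructor
  · intro hx
    refine ⟨fun c hc => ?_, fun C hC => ?_⟩
    · have := hx c (by omega)
      unfold cla at this
      rwa [if_pos hc] at this
    · obtain ⟨i, hi, rfl⟩ := List.mem_iff_getElem.1 hC
      have := hx (2 * (mb * n) + i) (by omega)
      unfold cla at this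
      rwa [if_neg (by omega), Nat.add_sub_cancel_left, List.getD_eq_getElem _ _ hi] at this
  · rintro ⟨h1, h2⟩ c hc
    unfold cla
    split_ifs with h3
    · exact h1 c h3
    · by_cases h4 : c - 2 * (mb * n) < R.length
      · rw [List.getD_eq_getElem _ _ h4]
        exact h2 _ (List.getElem_mem h4)
      · rw [List.getD_eq_default _ _ (not_lt.1 h4)]
        exact cs_dflt x

theorem lit_vs {V : ℕ} {C : Cl} (hC : vs V C) (j : ℕ) : (lit C j).2 < V := by
  unfold lit
  split_ifs
  · exact hC.1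
  · exact hC.2.1
  · exact hC.2.2

theorem LF_vs {V : ℕ} (hV : g0 h n mb ≤ V) (hR : ∀ C ∈ R, vs V C) (q : ℕ) : (LF h n mb R X q).2 < V := by
  refine lit_vs ?_ _
  unfold cla
  split_ifs with h1
  · have hA : 2 ^ h ≤ g0 h n mb ∧ w0 h + n ≤ g0 h n mb ∧ u0 h n + mb ≤ g0 h n mb := by
      unfold g0 k0 p0 u0 w0; omega
    have h2 : q / 3 / 2 < n * mb := by rw [mul_comm]; omega
    have hn : 0 < n := by
      rcases Nat.eq_zero_or_pos n with h0 | h0
      · rw [h0] at h2; simp at h2
      · exact h0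
    have h3 : q / 3 / 2 / n < mb := Nat.div_lt_of_lt_mul h2
    have h4 : q / 3 / 2 % n < n := Nat.mod_lt _ hn
    have h5 : adr h n X (q / 3 / 2) < 2 ^ h := dig_lt _ _
    unfold wcl
    split_ifs
    · exact ⟨by simp only; omega, by simp only; omega, by simp only; omega⟩
    · exact ⟨by simp only; omega, by simp only; omega, by simp only; omega⟩
  · by_cases h4 : q / 3 - 2 * (mb * n) < R.length
    · rw [List.getD_eq_getElem _ _ h4]
      exact hR _ (List.getElem_mem h4)
    · rw [List.getD_eq_default _ _ (not_lt.1 h4)]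
      have : 0 < V := by unfold g0 at hV; omega
      exact ⟨this, this, this⟩

/-- letter of a number of a variable -/
theorem lbit_succ (s : Bool) (v i : ℕ) (hi : 2 ≤ i) : lbit (s, v) i = v.testBit (i - 2) := by
  unfold lbit
  simp only
  rw [if_neg (by omega), show i - 1 = (i - 2) + 1 by omega]
  have h1 := Nat.testBit_two_pow_mul_add v (show 0 < 2 ^ 1 by norm_num) (i - 2 + 1)
  rw [if_neg (by omega), Nat.add_sub_cancel, add_zero, pow_one] at h1
  exact h1

/-- the letters that contain the blocks -/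
theorem lbit_in {k s i : ℕ} (hk : k < mb * n) (hs : s < 2) (hi1 : 2 ≤ i) (hi2 : i < 2 + h) :
    lbit (LF h n mb R X (6 * k + 3 * s)) i = X (k / n * h + (i - 2)) (k % n) := by
  unfold LF
  rw [show (6 * k + 3 * s) / 3 = 2 * k + s by omega, show (6 * k + 3 * s) % 3 = 0 by omega]
  unfold cla
  rw [if_pos (by omega)]
  unfold wcl lit
  rw [if_pos rfl, show (2 * k + s) / 2 = k by omega]
  split_ifs
  · simp only
    rw [lbit_succ _ _ _ hi1]
    unfold adr
    rw [testBit_dig (by omega)]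
  · simp only
    rw [lbit_succ _ _ _ hi1]
    unfold adr
    rw [testBit_dig (by omega)]

/-- the other letters -/
theorem lbit_out {q i : ℕ} (Y : ℕ → ℕ → Bool)
    (hq : ¬ (q < 6 * (mb * n) ∧ q % 3 = 0 ∧ 2 ≤ i ∧ i < 2 + h)) :
    lbit (LF h n mb R X q) i = lbit (LF h n mb R Y q) i := by
  by_cases h1 : q < 6 * (mb * n)
  · unfold LF cla
    rw [if_pos (by omega), if_pos (by omega)]
    by_cases h2 : q % 3 = 0
    · have key : ∀ (s : Bool) (Z : ℕ → ℕ → Bool), lbit (s, adr h n Z (q / 3 / 2)) i =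
          if i = 0 then s else false := by
        intro s Z
        by_cases h3 : i = 0
        · rw [if_pos h3, h3]; rfl
        · rw [if_neg h3]
          by_cases h4 : i = 1
          · subst h4
            unfold lbit
            simp only
            rw [if_neg (by omega)]
            simp
          · rw [lbit_succ _ _ _ (by omega)]
            unfold adr
            rw [testBit_dig', decide_eq_false (by omega), Bool.false_and]
      unfold lit wcl
      rw [if_pos h2, if_pos h2]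
      split_ifs
      · simp only
        rw [key, key]
      · simp only
        rw [key, key]
    · unfold lit wcl
      rw [if_neg h2, if_neg h2]
      split_ifs <;> rfl
  · unfold LF cla
    rw [if_neg (by omega), if_neg (by omega)]

end

/-- the blocks as functions of numbers -/
def Xn {M n : ℕ} (X : Fin M → Fin n → Bool) (b i : ℕ) : Bool :=
  if hh : b < M ∧ i < n then X ⟨b, hh.1⟩ ⟨i, hh.2⟩ else false

theorem Xn_eq {M n : ℕ} (X : Fin M → Fin n → Bool) {b i : ℕ} (hb : b < M) (hi : i < n) :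
    Xn X b i = X ⟨b, hb⟩ ⟨i, hi⟩ := by
  unfold Xn
  rw [dif_pos ⟨hb, hi⟩]

theorem blk {b mb h : ℕ} (hb : b < mb * h) : b / h < mb ∧ b % h < h := by
  have h0 : 0 < h := by
    rcases Nat.eq_zero_or_pos h with h0 | h0
    · rw [h0] at hb; simp at hb
    · exact h0
  exact ⟨Nat.div_lt_of_lt_mul (by rw [mul_comm]; exact hb), Nat.mod_lt b h0⟩

section
variable {N n h mb : ℕ}

theorem pos_ok (hh : h + 1 ≤ len N) (hM : 2 * (mb * n) ≤ nc N) {b i : ℕ} (hb : b < mb * h) (hi : i < n) :
    6 * (b / h * n + i) * (len N + 1) + (2 + b % h) < N := by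
  obtain ⟨h1, h2⟩ := blk hb
  have h3 := pair_lt h1 hi
  exact pos_lt (nc_fits (by omega)) (by omega)

/-- the positions of the blocks -/
def pos (hh : h + 1 ≤ len N) (hM : 2 * (mb * n) ≤ nc N) (b : Fin (mb * h)) (i : Fin n) : Fin N :=
  ⟨6 * ((b : ℕ) / h * n + i) * (len N + 1) + (2 + (b : ℕ) % h), pos_ok hh hM b.2 i.2⟩

theorem pos_inj (hh : h + 1 ≤ len N) (hM : 2 * (mb * n) ≤ nc N) (b b' : Fin (mb * h)) (i i' : Fin n)
    (he : pos hh hM b i = pos hh hM b' i') : b = b' ∧ i = i' := by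
  have h1 := (blk b.2).2
  have h1' := (blk b'.2).2
  have h2 := congrArg Fin.val he
  simp only [pos] at h2
  obtain ⟨e1, e2⟩ := pos_div (l := len N) (q := 6 * ((b : ℕ) / h * n + i)) (i := 2 + (b : ℕ) % h) (by omega)
  obtain ⟨e1', e2'⟩ := pos_div (l := len N) (q := 6 * ((b' : ℕ) / h * n + i')) (i := 2 + (b' : ℕ) % h)
    (by omega)
  rw [h2, e1'] at e1
  rw [h2, e2'] at e2
  have h3 : (b : ℕ) / h * n + i = (b' : ℕ) / h * n + i' := by omega
  have h4 : (b : ℕ) % h = (b' : ℕ) % h := by omega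
  obtain ⟨f1, f2⟩ := pair_div (b := (b : ℕ) / h) i.2
  obtain ⟨f1', f2'⟩ := pair_div (b := (b' : ℕ) / h) i'.2
  rw [h3, f1'] at f1
  rw [h3, f2'] at f2
  refine ⟨Fin.ext ?_, Fin.ext f2.symm⟩
  rw [← Nat.div_add_mod (b : ℕ) h, ← Nat.div_add_mod (b' : ℕ) h, f1, h4]

/-- the second copy of a letter is read as the first copy -/
def phi (h n mb : ℕ) (p : Fin N) : Fin N :=
  if (p : ℕ) / (len N + 1) < 6 * (mb * n) ∧ (p : ℕ) / (len N + 1) % 6 = 3 ∧ 2 ≤ (p : ℕ) % (len N + 1) ∧
      (p : ℕ) % (len N + 1) < 2 + h then ⟨(p : ℕ) - 3 * (len N + 1), lt_of_le_of_lt (Nat.sub_le _ _) p.2⟩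
  else p

/-- **The word.** -/
theorem wd_phi (hh : h + 1 ≤ len N) (hM : 2 * (mb * n) ≤ nc N) (R : List Cl) (X : Fin (mb * h) → Fin n → Bool) :
    (wd (pos hh hM) (enc N (LF h n mb R fun _ _ => false)) X) ∘ phi h n mb = enc N (LF h n mb R (Xn X)) := by
  funext p
  obtain ⟨q, hq⟩ : ∃ q, q = (p : ℕ) / (len N + 1) := ⟨_, rfl⟩
  obtain ⟨i, hi⟩ : ∃ i, i = (p : ℕ) % (len N + 1) := ⟨_, rfl⟩
  have hp : (p : ℕ) = q * (len N + 1) + i := by
    rw [hq, hi, mul_comm]
    exact (Nat.div_add_mod _ _).symm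
  have hil : i ≤ len N := by
    rw [hi]
    exact Nat.lt_succ_iff.1 (Nat.mod_lt _ (by omega))
  have hR : enc N (LF h n mb R (Xn X)) p = lbit (LF h n mb R (Xn X) q) i := by rw [hq, hi]; rfl
  rw [hR]
  -- the letters of the blocks
  have key : ∀ (k s : ℕ) (hk : k < mb * n), s < 2 → q = 6 * k + 3 * s → 2 ≤ i → i < 2 + h →
      lbit (LF h n mb R (Xn X) q) i = wd (pos hh hM) (enc N (LF h n mb R fun _ _ => false)) X
        ⟨6 * k * (len N + 1) + i, pos_lt (nc_fits (by omega)) (by omega)⟩ := by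
    intro k s hk hs hqk h2i hih
    have hn : 0 < n := by
      rcases Nat.eq_zero_or_pos n with h0 | h0
      · rw [h0] at hk; simp at hk
      · exact h0
    have hb : k / n < mb := Nat.div_lt_of_lt_mul (by rw [mul_comm]; exact hk)
    have hbh : k / n * h + (i - 2) < mb * h := pair_lt hb (by omega)
    obtain ⟨e1, e2⟩ := pair_div (b := k / n) (i := i - 2) (n := h) (by omega)
    have e3 : k / n * n + k % n = k := by rw [mul_comm]; exact Nat.div_add_mod k n
    have hpos : pos hh hM ⟨_, hbh⟩ ⟨k % n, Nat.mod_lt _ hn⟩ =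
        ⟨6 * k * (len N + 1) + i, pos_lt (nc_fits (by omega)) (by omega)⟩ := by
      refine Fin.ext ?_
      simp only [pos]
      rw [e1, e2, e3]
      omega
    rw [← hpos, wd_pos (pos_inj hh hM), hqk, lbit_in hk hs h2i hih, Xn_eq X hbh (Nat.mod_lt _ hn)]
  by_cases h1 : q < 6 * (mb * n) ∧ q % 3 = 0 ∧ 2 ≤ i ∧ i < 2 + h
  · obtain ⟨h2, h3, h4, h5⟩ := h1
    by_cases h6 : q % 6 = 3
    · rw [key (q / 6) 1 (by omega) (by omega) (by omega) h4 h5, Function.comp]
      congr 1
      unfold phi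
      rw [if_pos ⟨by rw [← hq]; exact h2, by rw [← hq]; exact h6, by rw [← hi]; exact h4,
        by rw [← hi]; exact h5⟩]
      refine Fin.ext ?_
      simp only
      have : q = 6 * (q / 6) + 3 := by omega
      rw [hp]
      generalize q / 6 = k at this
      subst this
      have : (6 * k + 3) * (len N + 1) = 6 * k * (len N + 1) + 3 * (len N + 1) := by ring
      omega
    · rw [key (q / 6) 0 (by omega) (by omega) (by omega) h4 h5, Function.comp]
      congr 1
      unfold phi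
      rw [if_neg (by rw [← hq]; exact fun hc => h6 hc.2.1)]
      refine Fin.ext ?_
      simp only
      rw [hp]
      congr 2
      omega
  · have hphi : phi h n mb p = p := by
      unfold phi
      rw [if_neg]
      rintro ⟨h2, h3, h4, h5⟩
      rw [← hq] at h2 h3
      rw [← hi] at h4 h5
      exact h1 ⟨h2, by omega, h4, h5⟩
    rw [Function.comp, hphi, wd_off]
    · rw [lbit_out (fun _ _ => false) h1, hq, hi]
      rfl
    · intro b i' hb
      obtain ⟨h8, h7⟩ := blk b.2
      have h9 := pair_lt h8 i'.2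
      have h2 := congrArg Fin.val hb
      simp only [pos] at h2
      obtain ⟨e1, e2⟩ := pos_div (l := len N) (q := 6 * ((b : ℕ) / h * n + i')) (i := 2 + (b : ℕ) % h)
        (by omega)
      rw [h2, ← hq] at e1
      rw [h2, ← hi] at e2
      exact h1 ⟨by omega, by omega, by omega, by omega⟩

/-- **The formula of the blocks.** -/
theorem sat_blocks {G : ℕ} {g : BF n} (hg : Cmp n G g) (hh : h + 1 ≤ len N) (hM : 2 * (mb * n) ≤ nc N)
    (hV : 2 * (g0 h n mb + G) ≤ 2 ^ len N)
    (hC : 2 * (mb * n) + (h + mb + 2 ^ h * h + 7 + 3 * G) ≤ nc N) :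
    ∃ z0 : Fin N → Bool, ∀ X : Fin (mb * h) → Fin n → Bool, ∀ L : List Bool → Prop, AgreesF L →
      (L (List.ofFn ((wd (pos hh hM) z0 X) ∘ phi h n mb)) ↔ ∃ b, g (X b) = true) := by
  obtain ⟨Φ, h1, h2, h3⟩ := gad_iff hg h mb
  refine ⟨enc N (LF h n mb (rest h n mb Φ) fun _ _ => false), fun X L hL => ?_⟩
  rw [wd_phi]
  have hF : ∀ q < 3 * nc N, 2 * (LF h n mb (rest h n mb Φ) (Xn X) q).2 < 2 ^ len N := by
    intro q _
    have := LF_vs (h := h) (n := n) (mb := mb) (R := rest h n mb Φ) (X := Xn X) (V := g0 h n mb + G)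
      (by omega) (vs_rest h2) q
    omega
  rw [hL _ (var_even _ hF), sat_enc _ hF]
  have e1 : ∀ x, Sa (nc N) (LF h n mb (rest h n mb Φ) (Xn X)) x ↔
      (∀ c < 2 * (mb * n), cs x (wcl h n (u0 h n) (w0 h) (Xn X) c)) ∧ ∀ C ∈ rest h n mb Φ, cs x C := by
    intro x
    rw [sa_iff, all_iff]
    rw [length_rest]
    omega
  simp only [e1]
  rw [h3 (Xn X)]
  have hx : ∀ (b r : ℕ) (hb : b < mb) (hr : r < h), (fun i : Fin n => Xn X (b * h + r) i) =
      X ⟨b * h + r, pair_lt hb hr⟩ := fun b r hb hr => by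
    funext i
    exact Xn_eq X (pair_lt hb hr) i.2
  constructor
  · rintro ⟨b, hb, r, hr, h4⟩
    rw [hx b r hb hr] at h4
    exact ⟨_, h4⟩
  · rintro ⟨b, hb⟩
    obtain ⟨h5, h6⟩ := blk b.2
    refine ⟨(b : ℕ) / h, h5, (b : ℕ) % h, h6, ?_⟩
    rw [hx _ _ h5 h6]
    have : (⟨(b : ℕ) / h * h + (b : ℕ) % h, pair_lt h5 h6⟩ : Fin (mb * h)) = b := by
      refine Fin.ext ?_
      simp only
      rw [mul_comm]
      exact Nat.div_add_mod _ _
    rw [this]
    exact hb

end

end Pool.Agent.KST
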