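import Pool.Agent.KST.HGad
import Pool.Agent.KST.Word

/-! The words with the Horn formula of the sum of the blocks. -/

namespace Pool.Agent.KST

open Finset Pool.Agent.KCV Pool.Agent.KH
open Pool.Agent.KE (zb)

/-- clause `q` -/
def Hp.cl (c : Hp) (D : ℕ → ℕ → Bool) (q : ℕ) : Cl :=
  if q < 2 * (c.B * c.n) then c.wc D (q / 2) (q % 2) else c.R.getD (q - 2 * (c.B * c.n)) dflt

/-- literal `q` -/
def Hp.LF (c : Hp) (D : ℕ → ℕ → Bool) (q : ℕ) : Li := lit (c.cl D (q / 3)) (q % 3)

/-- at most one positive literal -/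
theorem hcl_pos {C : Cl} (h : hcl C ∨ C = dflt) {j j' : ℕ} (h1 : (lit C j).1 = true)
    (h2 : (lit C j').1 = true) : (lit C j).2 = (lit C j').2 := by
  unfold lit at *
  rcases h with (⟨a, rfl⟩ | ⟨a, rfl⟩ | ⟨a, b, rfl⟩ | ⟨a, a', b, rfl⟩) | rfl
  · unfold pcl at *
    split_ifs <;> rfl
  · unfold ncl at *
    split_ifs <;> rfl
  · unfold icl at *
    split_ifs at * <;> simp_all
  · unfold jcl at *
    split_ifs at * <;> simp_all
  · unfold dflt at *
    split_ifs at * <;> simp_all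

section
variable (c : Hp) {D : ℕ → ℕ → Bool}

theorem Hp.hcl_cl (q : ℕ) : hcl (c.cl D q) ∨ c.cl D q = dflt := by
  unfold Hp.cl
  split_ifs with h
  · exact Or.inl (c.hcl_wc _ _ _)
  · by_cases h1 : q - 2 * (c.B * c.n) < c.R.length
    · rw [List.getD_eq_getElem _ _ h1]
      exact Or.inl (c.hcl_R _ (List.getElem_mem h1))
    · rw [List.getD_eq_default _ _ (not_lt.1 h1)]
      exact Or.inr rfl

theorem Hp.sa_iff (M : ℕ) (x : ℕ → Bool) : Sa M (c.LF D) x ↔ ∀ q < M, cs x (c.cl D q) := by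
  unfold Sa
  refine forall_congr' fun q => forall_congr' fun _ => ?_
  have e : ∀ j < 3, c.LF D (3 * q + j) = lit (c.cl D q) j := by
    intro j hj
    unfold Hp.LF
    rw [show (3 * q + j) / 3 = q by omega, show (3 * q + j) % 3 = j by omega]
  unfold cs
  constructor
  · rintro ⟨j, hj, h1⟩
    rw [e j hj] at h1
    obtain rfl | rfl | rfl : j = 0 ∨ j = 1 ∨ j = 2 := by omega
    · left; exact h1
    · right; left; exact h1
    · right; right; exact h1
  · rintro (h1 | h1 | h1)
    · exact ⟨0, by omega, by rw [e 0 (by omega)]; exact h1⟩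
    · exact ⟨1, by omega, by rw [e 1 (by omega)]; exact h1⟩
    · exact ⟨2, by omega, by rw [e 2 (by omega)]; exact h1⟩

theorem Hp.all_iff {M : ℕ} (hM : 2 * (c.B * c.n) + c.R.length ≤ M) (x : ℕ → Bool) :
    (∀ q < M, cs x (c.cl D q)) ↔
      (∀ k < c.B * c.n, cs x (c.wc D k 0) ∧ cs x (c.wc D k 1)) ∧ ∀ C ∈ c.R, cs x C := by
  constructor
  · intro hx
    refine ⟨fun k hk => ⟨?_, ?_⟩, fun C hC => ?_⟩
    · have := hx (2 * k) (by omega)
      unfold Hp.cl at this
      rwa [if_pos (by omega), show 2 * k / 2 = k by omega, show 2 * k % 2 = 0 by omega] at this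
    · have := hx (2 * k + 1) (by omega)
      unfold Hp.cl at this
      rwa [if_pos (by omega), show (2 * k + 1) / 2 = k by omega, show (2 * k + 1) % 2 = 1 by omega] at this
    · obtain ⟨i, hi, rfl⟩ := List.mem_iff_getElem.1 hC
      have := hx (2 * (c.B * c.n) + i) (by omega)
      unfold Hp.cl at this
      rwa [if_neg (by omega), Nat.add_sub_cancel_left, List.getD_eq_getElem _ _ hi] at this
  · rintro ⟨h1, h2⟩ q hq
    unfold Hp.cl
    split_ifs with h3
    · obtain ⟨h4, h5⟩ := h1 (q / 2) (by omega)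
      rcases Nat.mod_two_eq_zero_or_one q with h6 | h6
      · rw [h6]; exact h4
      · rw [h6]; exact h5
    · by_cases h4 : q - 2 * (c.B * c.n) < c.R.length
      · rw [List.getD_eq_getElem _ _ h4]
        exact h2 _ (List.getElem_mem h4)
      · rw [List.getD_eq_default _ _ (not_lt.1 h4)]
        exact cs_dflt x

/-- the number of variables -/
def Hp.V (c : Hp) : ℕ := 2 ^ c.h + 2 ^ c.h + 2 * (c.F + c.G)

theorem Hp.rl_lt {b : Bool} {p : ℕ} (hp : p < c.F + c.G) : c.rl b p < c.V := by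
  unfold Hp.rl Hp.V
  split_ifs <;> omega

theorem Hp.vs_wc {k s : ℕ} (hk : k < c.B * c.n) : vs c.V (c.wc D k s) := by
  have hd := dig_lt c.h (D k)
  have hF : c.F = 3 + 2 * (c.B * c.n) := rfl
  have h1 : ∀ b, c.rl b (3 + 2 * k) < c.V := fun b => c.rl_lt (by omega)
  have h2 := h1 true
  have h3 := h1 false
  have h4 : 2 ^ c.h + 2 ^ c.h ≤ c.V := by unfold Hp.V; omega
  unfold Hp.wc
  split_ifs
  · exact ⟨by simp only [icl]; omega, by simp only [icl]; omega, by simp only [icl]; omega⟩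
  · exact ⟨by simp only [icl]; omega, by simp only [icl]; omega, by simp only [icl]; omega⟩

theorem Hp.vs_R (hc : c.Ok) : ∀ C ∈ c.R, vs c.V C := by
  have hF : c.F = 3 + 2 * (c.B * c.n) := rfl
  have hr : ∀ b p, p < c.F + c.G → c.rl b p < c.V := fun b p hp => c.rl_lt hp
  have hp1 : ∀ b p, p < c.F + c.G → vs c.V (pcl (c.rl b p)) := fun b p hp => ⟨hr b p hp, hr b p hp, hr b p hp⟩
  have hi : ∀ b p b' p', p < c.F + c.G → p' < c.F + c.G → vs c.V (icl (c.rl b p) (c.rl b' p')) :=
    fun b p b' p' h h' => ⟨hr b p h, hr b' p' h', hr b' p' h'⟩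
  have hj : ∀ b p b' p' b'' p'', p < c.F + c.G → p' < c.F + c.G → p'' < c.F + c.G →
      vs c.V (jcl (c.rl b p) (c.rl b' p') (c.rl b'' p'')) :=
    fun b p b' p' b'' p'' h h' h'' => ⟨hr b p h, hr b' p' h', hr b'' p'' h''⟩
  rw [Hp.forall_R]
  refine ⟨hp1 _ _ (by omega), hp1 _ _ (by omega), hp1 _ _ (by omega), ?_, fun j hj' => ?_, fun k hk => ?_,
    fun i hi' => ?_⟩
  · exact ⟨hr _ _ hc.ho, hr _ _ hc.ho, hr _ _ hc.ho⟩
  · have h4 : 2 ^ c.h + 2 ^ c.h ≤ c.V := by unfold Hp.V; omega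
    have h5 : (if par c.h j = true then j else 2 ^ c.h + j) < c.V := by
      split_ifs <;> omega
    exact ⟨h5, h5, h5⟩
  · have ha := c.ac_lt hc (k := k)
    unfold Hp.xc
    simp only [List.forall_mem_cons, List.not_mem_nil, false_imp_iff, implies_true, and_true]
    exact ⟨hj _ _ _ _ _ _ (by omega) (by omega) (by omega), hj _ _ _ _ _ _ (by omega) (by omega) (by omega),
      hj _ _ _ _ _ _ (by omega) (by omega) (by omega), hj _ _ _ _ _ _ (by omega) (by omega) (by omega)⟩
  · have hQ := hc.hQ i hi'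
    unfold Hp.gc
    simp only [List.forall_mem_cons, List.not_mem_nil, false_imp_iff, implies_true, and_true]
    exact ⟨hj _ _ _ _ _ _ (by omega) (by omega) (by omega), hi _ _ _ _ (by omega) (by omega),
      hi _ _ _ _ (by omega) (by omega)⟩

theorem Hp.LF_vs (hc : c.Ok) (q : ℕ) : (c.LF D q).2 < c.V := by
  refine lit_vs ?_ _
  unfold Hp.cl
  split_ifs with h
  · exact c.vs_wc (by omega)
  · by_cases h1 : q / 3 - 2 * (c.B * c.n) < c.R.length
    · rw [List.getD_eq_getElem _ _ h1]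
      exact c.vs_R hc _ (List.getElem_mem h1)
    · rw [List.getD_eq_default _ _ (not_lt.1 h1)]
      have : 0 < c.V := by
        have : 0 < 2 ^ c.h := by positivity
        unfold Hp.V; omega
      exact ⟨this, this, this⟩

/-- the letters that contain the blocks -/
theorem Hp.lbit_in {k s i : ℕ} (hk : k < c.B * c.n) (hs : s < 2) (hi1 : 2 ≤ i) (hi2 : i < 2 + c.h) :
    lbit (c.LF D (6 * k + 3 * s)) i = D k (i - 2) := by
  unfold Hp.LF
  rw [show (6 * k + 3 * s) / 3 = 2 * k + s by omega, show (6 * k + 3 * s) % 3 = 0 by omega]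
  unfold Hp.cl
  rw [if_pos (by omega), show (2 * k + s) / 2 = k by omega, show (2 * k + s) % 2 = s by omega]
  unfold Hp.wc lit
  rw [if_pos rfl]
  split_ifs
  · unfold icl
    simp only
    rw [lbit_succ _ _ _ hi1, testBit_dig (by omega)]
  · unfold icl
    simp only
    rw [lbit_succ _ _ _ hi1]
    have h1 : 2 ^ c.h + dig c.h (D k) = 2 ^ c.h * 1 + dig c.h (D k) := by rw [mul_one]
    rw [h1, Nat.testBit_two_pow_mul_add _ (dig_lt c.h (D k)), if_pos (by omega), testBit_dig (by omega)]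

/-- the other letters -/
theorem Hp.lbit_out {q i : ℕ} (D D' : ℕ → ℕ → Bool)
    (hq : ¬ (q < 6 * (c.B * c.n) ∧ q % 3 = 0 ∧ 2 ≤ i ∧ i < 2 + c.h)) :
    lbit (c.LF D q) i = lbit (c.LF D' q) i := by
  by_cases h1 : q < 6 * (c.B * c.n)
  · unfold Hp.LF Hp.cl
    rw [if_pos (by omega), if_pos (by omega)]
    by_cases h2 : q % 3 = 0
    · -- the letters of a number that are not data
      have key : ∀ (b k : ℕ) (Z : ℕ → Bool), lbit (false, 2 ^ c.h * b + dig c.h Z) i =
          if i < 2 then false else b.testBit (i - 2 - c.h) := by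
        intro b k Z
        by_cases h3 : i < 2
        · rw [if_pos h3]
          obtain rfl | rfl : i = 0 ∨ i = 1 := by omega
          · rfl
          · unfold lbit
            simp only
            rw [if_neg (by omega)]
            simp
        · rw [if_neg h3, lbit_succ _ _ _ (by omega), Nat.testBit_two_pow_mul_add _ (dig_lt c.h Z),
            if_neg (by omega)]
      have key0 : ∀ Z : ℕ → Bool, lbit (false, dig c.h Z) i =
          if i < 2 then false else (0 : ℕ).testBit (i - 2 - c.h) := by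
        intro Z
        rw [← key 0 0 Z, mul_zero, zero_add]
      have key1 : ∀ Z : ℕ → Bool, lbit (false, 2 ^ c.h + dig c.h Z) i =
          if i < 2 then false else (1 : ℕ).testBit (i - 2 - c.h) := by
        intro Z
        rw [← key 1 0 Z, mul_one]
      unfold lit Hp.wc
      rw [if_pos h2, if_pos h2]
      split_ifs
      · unfold icl
        simp only
        rw [key0, key0]
      · unfold icl
        simp only
        rw [key1, key1]
    · unfold lit Hp.wc
      rw [if_neg h2, if_neg h2]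
      split_ifs <;> rfl
  · unfold Hp.LF Hp.cl
    rw [if_neg (by omega), if_neg (by omega)]

end

/-- the data in clause `k` -/
def dta {M n : ℕ} (h : ℕ) (X : Fin M → Fin n → Bool) (k r : ℕ) : Bool := Xn X (k / n * h + r) (k % n)

section
variable {N : ℕ} {c : Hp}

/-- **The word.** -/
theorem hwd_phi (hh : c.h + 1 ≤ len N) (hM : 2 * (c.B * c.n) ≤ nc N) (X : Fin (c.B * c.h) → Fin c.n → Bool) :
    (wd (pos hh hM) (enc N (c.LF fun _ _ => false)) X) ∘ phi c.h c.n c.B = enc N (c.LF (dta c.h X)) := by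
  funext p
  obtain ⟨q, hq⟩ : ∃ q, q = (p : ℕ) / (len N + 1) := ⟨_, rfl⟩
  obtain ⟨i, hi⟩ : ∃ i, i = (p : ℕ) % (len N + 1) := ⟨_, rfl⟩
  have hp : (p : ℕ) = q * (len N + 1) + i := by
    rw [hq, hi, mul_comm]
    exact (Nat.div_add_mod _ _).symm
  have hil : i ≤ len N := by
    rw [hi]
    exact Nat.lt_succ_iff.1 (Nat.mod_lt _ (by omega))
  have hR : enc N (c.LF (dta c.h X)) p = lbit (c.LF (dta c.h X) q) i := by rw [hq, hi]; rfl
  rw [hR]
  -- the letters of the blocks
  have key : ∀ (k s : ℕ) (hk : k < c.B * c.n), s < 2 → q = 6 * k + 3 * s → 2 ≤ i → i < 2 + c.h →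
      lbit (c.LF (dta c.h X) q) i = wd (pos hh hM) (enc N (c.LF fun _ _ => false)) X
        ⟨6 * k * (len N + 1) + i, pos_lt (nc_fits (by omega)) (by omega)⟩ := by
    intro k s hk hs hqk h2i hih
    have hn : 0 < c.n := by
      rcases Nat.eq_zero_or_pos c.n with h0 | h0
      · rw [h0] at hk; simp at hk
      · exact h0
    have hb : k / c.n < c.B := Nat.div_lt_of_lt_mul (by rw [mul_comm]; exact hk)
    have hbh : k / c.n * c.h + (i - 2) < c.B * c.h := row_lt hb (by omega)
    obtain ⟨e1, e2⟩ := pair_div (b := k / c.n) (i := i - 2) (n := c.h) (by omega)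
    have e3 : k / c.n * c.n + k % c.n = k := by rw [mul_comm]; exact Nat.div_add_mod k c.n
    have hpos : pos hh hM ⟨_, hbh⟩ ⟨k % c.n, Nat.mod_lt _ hn⟩ =
        ⟨6 * k * (len N + 1) + i, pos_lt (nc_fits (by omega)) (by omega)⟩ := by
      refine Fin.ext ?_
      simp only [pos]
      rw [e1, e2, e3]
      omega
    rw [← hpos, wd_pos (pos_inj hh hM), hqk, c.lbit_in hk hs h2i hih]
    unfold dta
    rw [Xn_eq X hbh (Nat.mod_lt _ hn)]
  by_cases h1 : q < 6 * (c.B * c.n) ∧ q % 3 = 0 ∧ 2 ≤ i ∧ i < 2 + c.h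
  · obtain ⟨h2, h3, h4, h5⟩ := h1
    by_cases h6 : q % 6 = 3
    · rw [key (q / 6) 1 (by omega) (by omega) (by omega) h4 h5, Function.comp]
      congr 1
      unfold phi
      rw [if_pos ⟨by rw [← hq]; exact h2, by rw [← hq]; exact h6, by rw [← hi]; exact h4,
        by rw [← hi]; exact h5⟩]
      refine Fin.ext ?_
      simp only
      have : q = 6 * (q / 6) + 3 := by omega
      rw [hp]
      generalize q / 6 = k at this
      subst this
      have : (6 * k + 3) * (len N + 1) = 6 * k * (len N + 1) + 3 * (len N + 1) := by ring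
      omega
    · rw [key (q / 6) 0 (by omega) (by omega) (by omega) h4 h5, Function.comp]
      congr 1
      unfold phi
      rw [if_neg (by rw [← hq]; exact fun hc => h6 hc.2.1)]
      refine Fin.ext ?_
      simp only
      rw [hp]
      congr 2
      omega
  · have hphi : phi c.h c.n c.B p = p := by
      unfold phi
      rw [if_neg]
      rintro ⟨h2, h3, h4, h5⟩
      rw [← hq] at h2 h3
      rw [← hi] at h4 h5
      exact h1 ⟨h2, by omega, h4, h5⟩
    rw [Function.comp, hphi, wd_off]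
    · rw [c.lbit_out (dta c.h X) (fun _ _ => false) h1, hq, hi]
      rfl
    · intro b i' hb
      obtain ⟨h8, h7⟩ := blk b.2
      have h9 := row_lt h8 i'.2
      have h2 := congrArg Fin.val hb
      simp only [pos] at h2
      obtain ⟨e1, e2⟩ := pos_div (l := len N) (q := 6 * ((b : ℕ) / c.h * c.n + i')) (i := 2 + (b : ℕ) % c.h)
        (by omega)
      rw [h2, ← hq] at e1
      rw [h2, ← hi] at e2
      exact h1 ⟨by omega, by omega, by omega, by omega⟩

/-- the formula of a word is a Horn formula -/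
theorem horn_enc (hc : c.Ok) (hV : 2 * c.V ≤ 2 ^ len N) (D : ℕ → ℕ → Bool) :
    Horn (List.ofFn (enc N (c.LF D))) := by
  intro q hq j hj j' hj' h1 h2
  rw [List.length_ofFn] at hq
  have hF : ∀ p, 2 * (c.LF D p).2 < 2 ^ len N := fun p => by
    have := c.LF_vs (D := D) hc p
    omega
  rw [sgn_enc _ (nc_fits (by omega))] at h1 h2
  rw [var_enc _ (nc_fits (by omega)) (hF _), var_enc _ (nc_fits (by omega)) (hF _)]
  have e : ∀ j < 3, c.LF D (3 * q + j) = lit (c.cl D q) j := by
    intro j hj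
    unfold Hp.LF
    rw [show (3 * q + j) / 3 = q by omega, show (3 * q + j) % 3 = j by omega]
  rw [e j hj] at h1 ⊢
  rw [e j' hj'] at h2 ⊢
  rw [hcl_pos (c.hcl_cl q) h1 h2]

end

theorem sum_blocks {M : Type} [AddCommMonoid M] (f : ℕ → M) (B h : ℕ) :
    ∑ b ∈ range B, ∑ r ∈ range h, f (b * h + r) = ∑ j ∈ range (B * h), f j := by
  induction B with
  | zero => simp
  | succ B ih =>
    rw [Finset.sum_range_succ, ih, Nat.succ_mul, Finset.sum_range_add]

/-- **The Horn formula of the sum of the blocks.** -/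
theorem horn_blocks {N n h B G : ℕ} {g : BF n} (hg : Cmp n G g) (hh : h + 1 ≤ len N)
    (hM : 2 * (B * n) ≤ nc N) (hB : 1 ≤ B) (hn : 1 ≤ n)
    (hV : 2 * (2 ^ h + 2 ^ h + 2 * (3 + 2 * (B * n) + G)) ≤ 2 ^ len N)
    (hC : 2 * (B * n) + (4 + 2 ^ h + 4 * (B * n) + 3 * G) ≤ nc N) :
    ∃ z0 : Fin N → Bool, ∀ X : Fin (B * h) → Fin n → Bool, ∀ L : List Bool → Prop, AgreesH L →
      (L (List.ofFn ((wd (pos hh hM) z0 X) ∘ phi h n B)) ↔ g (xs X) = true) := by
  obtain ⟨L, hL, hav⟩ := hg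
  have hlen : L.length ≤ G := by
    have := hL.2.2
    simpa using this
  have hpa : ∀ l : Fin n, 3 + 2 * ((B - 1) * n + l) + 1 < 3 + 2 * (B * n) := fun l => by
    have := row_lt (B := B) (b := B - 1) (by omega) l.2
    omega
  obtain ⟨Q, hQ, hA⟩ := slp_circ (3 + 2 * (B * n)) (by omega)
    (fun l : Fin n => 3 + 2 * ((B - 1) * n + l) + 1) hpa hL.1
  obtain ⟨o, ho, hv⟩ := hA g hav
  obtain ⟨c, hceq⟩ : ∃ c : Hp, c = ⟨h, B, n, L.length, Q, o⟩ := ⟨_, rfl⟩
  have hFc : (⟨h, B, n, L.length, Q, o⟩ : Hp).F = 3 + 2 * (B * n) := rfl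
  have hc : (⟨h, B, n, L.length, Q, o⟩ : Hp).Ok := by
    refine ⟨hB, hn, fun i hi => ?_, ?_⟩
    · rw [hFc]; exact hQ i hi
    · rw [hFc]; exact ho
  refine ⟨enc N ((⟨h, B, n, L.length, Q, o⟩ : Hp).LF fun _ _ => false), fun X L' hL' => ?_⟩
  have e0 := hwd_phi (c := ⟨h, B, n, L.length, Q, o⟩) hh hM X
  rw [e0]
  have hV' : 2 * (⟨h, B, n, L.length, Q, o⟩ : Hp).V ≤ 2 ^ len N := by
    unfold Hp.V
    rw [hFc]
    simp only
    omega
  have hF : ∀ q < 3 * nc N, 2 * ((⟨h, B, n, L.length, Q, o⟩ : Hp).LF (dta h X) q).2 < 2 ^ len N := by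
    intro q _
    have := (⟨h, B, n, L.length, Q, o⟩ : Hp).LF_vs (D := dta h X) hc q
    omega
  rw [hL' _ (horn_enc hc hV' _) (var_even _ hF), sat_enc _ hF]
  have hCl : 2 * (B * n) + (⟨h, B, n, L.length, Q, o⟩ : Hp).R.length ≤ nc N := by
    rw [Hp.length_R]
    simp only
    omega
  have e1 : ∀ x, Sa (nc N) ((⟨h, B, n, L.length, Q, o⟩ : Hp).LF (dta h X)) x ↔
      (∀ k < B * n, cs x ((⟨h, B, n, L.length, Q, o⟩ : Hp).wc (dta h X) k 0) ∧
        cs x ((⟨h, B, n, L.length, Q, o⟩ : Hp).wc (dta h X) k 1)) ∧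
        ∀ C ∈ (⟨h, B, n, L.length, Q, o⟩ : Hp).R, cs x C := by
    intro x
    rw [Hp.sa_iff, Hp.all_iff _ hCl]
  simp only [e1]
  obtain ⟨v, hval⟩ := (⟨h, B, n, L.length, Q, o⟩ : Hp).exists_isV hc (dta h X)
  -- the values of the variables of the straight line program
  have hx : ∀ l : Fin n, v (3 + 2 * ((B - 1) * n + l) + 1) = xs X l := by
    intro l
    have h1 := (⟨h, B, n, L.length, Q, o⟩ : Hp).v_acc hc hval (l := l) l.2 (b := B - 1)
      (show B - 1 < B by omega)
    refine h1.trans ?_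
    unfold xs
    congr 2
    rw [Nat.sub_add_cancel hB]
    have h2 : ∀ b r, dta h X (b * n + l) r = Xn X (b * h + r) l := by
      intro b r
      unfold dta
      obtain ⟨e1, e2⟩ := pair_div (b := b) l.2
      rw [e1, e2]
    have h3 : ∑ b' ∈ range B, ∑ r ∈ range h, zb (dta h X (b' * n + l) r) =
        ∑ j ∈ range (B * h), zb (Xn X j l) := by
      rw [← sum_blocks (fun j => zb (Xn X j l)) B h]
      refine Finset.sum_congr rfl fun b _ => Finset.sum_congr rfl fun r _ => ?_
      rw [h2]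
    refine h3.trans ?_
    rw [← Fin.sum_univ_eq_sum_range (fun j => zb (Xn X j l))]
    refine Finset.sum_congr rfl fun b _ => ?_
    rw [Xn_eq X b.2 l.2]
  have hvo : v o = g (xs X) := by
    obtain ⟨v0, v1, v2, v3, v4⟩ := hval
    exact hv v (xs X) v1 v2 hx v4
  rw [← hvo]
  constructor
  · rintro ⟨x, hw, hR⟩
    exact (⟨h, B, n, L.length, Q, o⟩ : Hp).forced hc hval hw hR
  · intro h1
    exact ⟨_, (⟨h, B, n, L.length, Q, o⟩ : Hp).asg_sat hval h1⟩

end Pool.Agent.KST
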