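import Pool.Agent.KST.Defs

/-! Horn formulas. -/

namespace Pool.Agent.KST

/-- Horn formulas: no clause contains two different variables with the sign one. -/
def Horn (y : List Bool) : Prop :=
  ∀ c < nc y.length, ∀ j < 3, ∀ j' < 3, sgn y (3 * c + j) = true → sgn y (3 * c + j') = true →
    var y (3 * c + j) = var y (3 * c + j')

/-- **Satisfiability of Horn formulas.** -/
def HornSat (y : List Bool) : Prop := Horn y ∧ Sat3 y

/-- The language agrees with satisfiability on the Horn formulas in which all variables have even numbers. -/
def AgreesH (L : List Bool → Prop) : Prop :=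
  ∀ y, Horn y → (∀ q < 3 * nc y.length, var y q % 2 = 0) → (L y ↔ Sat3 y)

theorem agreesH_hornSat : AgreesH HornSat := fun _ hy _ => ⟨fun h => h.2, fun h => ⟨hy, h⟩⟩

theorem AgreesF.horn {L : List Bool → Prop} (h : AgreesF L) : AgreesH L := fun y _ hy => h y hy

end Pool.Agent.KST
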