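import Pool.Agent.KMQ.Dec

/-! Programs with relabelled variables. -/

namespace Pool.Agent.KST

open Pool.Agent.KNL Pool.Agent.KD Pool.Agent.KE
open Pool.Agent.KMQ (Halt Answers)

section
variable {V Γ I J : Type}

/-- the program that tests the variable `φ i` instead of the variable `i` -/
def relab (φ : I → J) (P : SBP V Γ I) : SBP V Γ J where
  src := P.src
  acc := P.acc
  free := P.free
  test u j b v := ∃ i, φ i = j ∧ P.test u i b v
  push := P.push
  pop := P.pop

theorem det_relab {φ : I → J} {P : SBP V Γ I} (hP : Det P) : Det (relab φ P) where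
  free_free := hP.free_free
  free_test := fun h ⟨_, _, h'⟩ => hP.free_test h h'
  free_push := hP.free_push
  free_pop := hP.free_pop
  test_test := fun ⟨i, hi, h⟩ ⟨i', hi', h'⟩ =>
    ⟨by rw [← hi, ← hi', (hP.test_test h h').1], (hP.test_test h h').2⟩
  test_push := fun ⟨_, _, h⟩ h' => hP.test_push h h'
  test_pop := fun ⟨_, _, h⟩ h' => hP.test_pop h h'
  push_push := hP.push_push
  push_pop := hP.push_pop
  pop_pop := hP.pop_pop
  acc_free := hP.acc_free
  acc_test := fun ⟨_, _, h⟩ => hP.acc_test h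
  acc_push := hP.acc_push
  acc_pop := hP.acc_pop

theorem halt_relab {φ : I → J} {P : SBP V Γ I} {v : V} (h : Halt P v) : Halt (relab φ P) v :=
  ⟨h.1, fun _ _ _ ⟨_, _, h'⟩ => h.2.1 _ _ _ h', h.2.2.1, h.2.2.2⟩

theorem walk_relab {φ : I → J} {P : SBP V Γ I} {y : J → Bool} {u v : V} {s t : List Γ} {l : List I}
    (h : P.Walk (y ∘ φ) u s v t l) : (relab φ P).Walk y u s v t (l.map φ) := by
  induction h with
  | nil u s => exact .nil _ _
  | free h1 _ ih => exact .free h1 ih
  | @test u v w s t i l h1 _ ih =>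
    rw [List.map_cons]
    exact .test ⟨i, rfl, h1⟩ ih
  | push h1 _ ih => exact .push h1 ih
  | pop h1 _ ih => exact .pop h1 ih

theorem walk_of_relab {φ : I → J} {P : SBP V Γ I} {y : J → Bool} {u v : V} {s t : List Γ} {l : List J}
    (h : (relab φ P).Walk y u s v t l) : ∃ l', l = l'.map φ ∧ P.Walk (y ∘ φ) u s v t l' := by
  induction h with
  | nil u s => exact ⟨[], rfl, .nil _ _⟩
  | free h1 _ ih =>
    obtain ⟨l', h2, h3⟩ := ih
    exact ⟨l', h2, .free h1 h3⟩
  | test h1 _ ih =>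
    obtain ⟨l', h2, h3⟩ := ih
    obtain ⟨i, rfl, h4⟩ := h1
    exact ⟨i :: l', by rw [h2, List.map_cons], .test h4 h3⟩
  | push h1 _ ih =>
    obtain ⟨l', h2, h3⟩ := ih
    exact ⟨l', h2, .push h1 h3⟩
  | pop h1 _ ih =>
    obtain ⟨l', h2, h3⟩ := ih
    exact ⟨l', h2, .pop h1 h3⟩

end

/-- the language read through the relabelling -/
def pull {N : ℕ} (φ : Fin N → Fin N) (L : List Bool → Prop) (w : List Bool) : Prop :=
  L (List.ofFn fun p : Fin N => w.getD (φ p) false)

theorem pull_ofFn {N : ℕ} (φ : Fin N → Fin N) (L : List Bool → Prop) (y : Fin N → Bool) :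
    pull φ L (List.ofFn y) ↔ L (List.ofFn (y ∘ φ)) := by
  unfold pull
  have : (fun p : Fin N => (List.ofFn y).getD (φ p) false) = y ∘ φ := by
    funext p
    rw [List.getD_eq_getElem _ _ (by simp), List.getElem_ofFn]
    rfl
  rw [this]

theorem answers_relab {V Γ : Type} {N : ℕ} {L : List Bool → Prop} {P : SBP V Γ (Fin N)} {rej : V}
    {T : ℕ} {φ : Fin N → Fin N} {y : Fin N → Bool} (h : Answers L P rej T (y ∘ φ)) :
    Answers (pull φ L) (relab φ P) rej T y := by
  obtain ⟨h1, h2⟩ := h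
  refine ⟨fun hL => ?_, fun hL => ?_⟩
  · rw [pull_ofFn] at hL
    obtain ⟨l, hl, hT⟩ := h1 hL
    exact ⟨l.map φ, walk_relab hl, by rw [List.length_map]; exact hT⟩
  · rw [pull_ofFn] at hL
    obtain ⟨l, hl, hT⟩ := h2 hL
    exact ⟨l.map φ, walk_relab hl, by rw [List.length_map]; exact hT⟩

end Pool.Agent.KST
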