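import Pool.Agent.KST.Word
import Pool.Agent.KST.Relab
import Pool.Agent.KMR.Abs

/-! The time bound for formulas, in terms of the size of the circuits of balanced functions. -/

namespace Pool.Agent.KST

open Finset Pool.Agent.SemRO Pool.Agent.KD Pool.Agent.KNL Pool.Agent.KE Pool.Agent.KH Pool.Agent.KCV
open Pool.Agent.KMQ (Halt Answers withAcc det_withAcc)

theorem sq_le_four_pow {h : ℕ} (hh : 8 ≤ h) : 576 * h ^ 2 ≤ 4 ^ h := by
  induction h, hh using Nat.le_induction with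
  | base => norm_num
  | succ h hh ih =>
    have : (h + 1) ^ 2 ≤ 4 * h ^ 2 := by nlinarith
    calc 576 * (h + 1) ^ 2 ≤ 4 * (576 * h ^ 2) := by omega
      _ ≤ 4 * 4 ^ h := Nat.mul_le_mul_left _ ih
      _ = 4 ^ (h + 1) := by rw [pow_succ]; ring

/-- the table is small -/
theorem small_tab {N h : ℕ} (hh : 8 ≤ h) (h1 : 3 * h ≤ len N) (h2 : len N ≤ 3 * h + 2) :
    8 * (2 ^ h * h + h + 7) ≤ nc N := by
  have h3 := sq_le_four_pow hh
  have hN : 2 ^ (3 * h) ≤ 2 * N := by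
    have h4 : 2 ^ Nat.log 2 N ≤ N := by
      refine Nat.pow_log_le_self 2 ?_
      rintro rfl
      unfold len at h1
      simp at h1
      omega
    calc 2 ^ (3 * h) ≤ 2 ^ (Nat.log 2 N + 1) := Nat.pow_le_pow_right (by norm_num) h1
      _ = 2 * 2 ^ Nat.log 2 N := by rw [pow_succ]; ring
      _ ≤ 2 * N := by omega
  unfold nc
  rw [Nat.le_div_iff_mul_le (by omega)]
  have h5 : 8 * (2 ^ h * h + h + 7) ≤ 16 * (2 ^ h * h) := by
    have h6 : 2 * h ≤ 2 ^ h * h := by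
      refine Nat.mul_le_mul_right _ ?_
      calc 2 = 2 ^ 1 := rfl
        _ ≤ 2 ^ h := Nat.pow_le_pow_right (by norm_num) (by omega)
    omega
  have h7 : 3 * (len N + 1) ≤ 18 * h := by omega
  have h8 : 16 * (2 ^ h * h) * (18 * h) ≤ N := by
    have e1 : 2 * (16 * (2 ^ h * h) * (18 * h)) = 2 ^ h * (576 * h ^ 2) := by ring
    have e2 : 2 ^ (3 * h) = 2 ^ h * 4 ^ h := by
      rw [show (4 : ℕ) = 2 ^ 2 by norm_num, ← pow_mul, ← pow_add]
      congr 1
      omega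
    have := Nat.mul_le_mul_left (2 ^ h) h3
    omega
  exact (Nat.mul_le_mul h5 h7).trans h8

/-- the parameters of the formula -/
theorem params {N n G : ℕ} (hn : 1 ≤ n) (h8 : 8 * n ≤ nc N) (hG : 12 * G ≤ nc N) (hN : 24 ≤ len N) :
    ∃ h mb : ℕ, 1 ≤ mb * h ∧ h + 1 ≤ len N ∧ 2 * (mb * n) ≤ nc N ∧ 2 * (g0 h n mb + G) ≤ 2 ^ len N ∧
      2 * (mb * n) + (h + mb + 2 ^ h * h + 7 + 3 * G) ≤ nc N ∧ N ≤ 576 * (mb * h * n) := by
  obtain ⟨h, hh⟩ : ∃ h, h = len N / 3 := ⟨_, rfl⟩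
  obtain ⟨mb, hmb⟩ : ∃ mb, mb = nc N / (8 * n) := ⟨_, rfl⟩
  have h1 : 8 ≤ h := by omega
  have h2 := small_tab h1 (N := N) (by omega) (by omega)
  have h3 : 1 ≤ mb := by
    rw [hmb]
    exact (Nat.one_le_div_iff (by omega)).2 h8
  have h4 : 8 * (mb * n) ≤ nc N := by
    have := Nat.div_mul_le_self (nc N) (8 * n)
    rw [← hmb] at this
    calc 8 * (mb * n) = mb * (8 * n) := by ring
      _ ≤ nc N := this
  have h5 : nc N ≤ 16 * (mb * n) := by
    have h6 := Nat.lt_mul_div_succ (nc N) (show 0 < 8 * n by omega)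
    rw [← hmb] at h6
    have e1 : 8 * n * (mb + 1) = 8 * (mb * n) + 8 * n := by ring
    have h7 : n ≤ mb * n := Nat.le_mul_of_pos_left _ h3
    omega
  have h6 : n ≤ mb * n := Nat.le_mul_of_pos_left _ h3
  have h7 : mb ≤ mb * n := Nat.le_mul_of_pos_right _ hn
  have h9 : N < 3 * (len N + 1) * (nc N + 1) := by
    unfold nc
    exact Nat.lt_mul_div_succ _ (by omega)
  have h10 : 3 * nc N ≤ N := by
    have : nc N * (3 * (len N + 1)) ≤ N := Nat.div_mul_le_self _ _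
    calc 3 * nc N = nc N * 3 := by ring
      _ ≤ nc N * (3 * (len N + 1)) := Nat.mul_le_mul_left _ (by omega)
      _ ≤ N := this
  have h11 : N < 2 ^ len N := lt_two_len N
  have h12 : 2 ^ h ≤ 2 ^ h * h := Nat.le_mul_of_pos_right _ (by omega)
  refine ⟨h, mb, Nat.mul_pos h3 (by omega), by omega, by omega, ?_, by omega, ?_⟩
  · unfold g0 k0 p0 u0 w0
    omega
  · have h13 : 3 * (len N + 1) ≤ 18 * h := by omega
    calc N ≤ 3 * (len N + 1) * (nc N + 1) := h9.le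
      _ ≤ 18 * h * (2 * nc N) := Nat.mul_le_mul h13 (by omega)
      _ ≤ 18 * h * (2 * (16 * (mb * n))) := Nat.mul_le_mul_left _ (by omega)
      _ = 576 * (mb * h * n) := by ring

open Classical in
/-- **The time bound in terms of circuits.** -/
theorem sat_time : ∃ c x0 : ℝ, 0 < c ∧ 1 ≤ x0 ∧ ∀ L : List Bool → Prop, AgreesF L →
    ∀ (N n G S : ℕ) (η : ℝ), 1 ≤ S → x0 * S ≤ n → 8 * n ≤ nc N → 12 * G ≤ nc N → 1 / 2 ^ S ≤ η →
    (∀ e, 1 ≤ e → 8 * e ≤ n → 4 * n ≤ e ^ 2 → ∃ g : BF n, Bal g e ∧ Cmp n G g) →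
    ∀ (ι : Type) [Fintype ι] (w : ι → ℝ) (V Γ : ι → Type) [∀ i, Fintype (V i)]
      (P : ∀ i, SBP (V i) (Γ i) (Fin N)) (rej : ∀ i, V i), (∀ i, 0 ≤ w i) → ∑ i, w i = 1 →
      (∀ i, Det (P i) ∧ Halt (P i) (rej i) ∧ rej i ≠ (P i).acc ∧ Fintype.card (V i) ≤ 2 ^ S) →
      ∀ T : ℕ, (∀ y, 1 / 2 + η ≤ ∑ i, if Answers L (P i) (rej i) T y then w i else 0) →
        c * η * N * Real.log (n / S) / Real.log (Real.log (n / S)) ≤ T := by
  obtain ⟨c, x0, hc, hx0, h⟩ := Pool.Agent.KMR.time_abs 576 (by norm_num)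
  refine ⟨c, max x0 (2 ^ 21), hc, le_max_of_le_left hx0, ?_⟩
  intro L hL N n G S η hS hx h8 hG hη hg ι _ w V Γ _ P rej hw0 hw1 hP T hT
  have hS1 : (1 : ℝ) ≤ S := by exact_mod_cast hS
  have hx1 : x0 * S ≤ n := (mul_le_mul_of_nonneg_right (le_max_left _ _) (by linarith)).trans hx
  have hn : 2 ^ 21 ≤ n := by
    have h1 : (2 : ℝ) ^ 21 * S ≤ n := (mul_le_mul_of_nonneg_right (le_max_right _ _) (by linarith)).trans hx
    have h2 : (2 : ℝ) ^ 21 ≤ n := le_trans (by nlinarith) h1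
    exact_mod_cast h2
  have hlen : 24 ≤ len N := by
    have h1 : nc N ≤ N := Nat.div_le_self _ _
    have h2 : 2 ^ 24 ≤ N := by
      have : 8 * 2 ^ 21 = 2 ^ 24 := by norm_num
      omega
    have h3 : N < 2 ^ len N := lt_two_len N
    by_contra hcon
    have h4 : 2 ^ len N ≤ 2 ^ 24 := Nat.pow_le_pow_right (by norm_num) (by omega)
    omega
  obtain ⟨a, mb, hm, hh, hM, hV, hC, hK⟩ := params (by omega) h8 hG hlen
  have hblocks : ∀ (g : BF n), Cmp n G g → ∃ z0 : Fin N → Bool, ∀ X : Fin (mb * a) → Fin n → Bool,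
      (L (List.ofFn ((wd (pos hh hM) z0 X) ∘ phi a n mb)) ↔ ∃ b, g (X b) = true) := by
    intro g hg
    obtain ⟨z0, hz0⟩ := sat_blocks hg hh hM hV hC
    exact ⟨z0, fun X => hz0 X L hL⟩
  refine h N n (mb * a) S η hS hx1 hm hK hη (pos hh hM) (fun b b' i i' => pos_inj hh hM b b' i i')
    (fun w => ¬ pull (phi (N := N) a n mb) L w) (fun e he h8 h4 => ?_) ι w V Γ
    (fun i => withAcc (relab (phi (N := N) a n mb) (P i)) (rej i)) hw0 hw1
    (fun i => ⟨det_withAcc (det_relab (hP i).1) (halt_relab (hP i).2.1), (hP i).2.2.2⟩) T (fun y => ?_)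
  · obtain ⟨g, hbal, hcmp⟩ := hg e he h8 h4
    obtain ⟨z0, hz0⟩ := hblocks g hcmp
    refine ⟨g, hbal, z0, fun X => ?_⟩
    rw [pull_ofFn, hz0]
    push Not
    simp only [Bool.not_eq_true]
  · refine (hT (y ∘ phi a n mb)).trans (Finset.sum_le_sum fun i _ => ?_)
    split_ifs with h1 h2 h2
    · exact le_rfl
    · exact absurd ((answers_relab h1).compl (det_relab (hP i).1) (halt_relab (hP i).2.1) (hP i).2.2.1) h2
    · exact hw0 i
    · exact le_rfl

end Pool.Agent.KST
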