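import Pool.Agent.KST.Time
import Pool.Agent.KCV.All

/-! Two-sided error for satisfiability. -/

namespace Pool.Agent.KST

open Finset Pool.Agent.KNL Pool.Agent.KD Pool.Agent.KE Pool.Agent.KH Pool.Agent.KCV
open Pool.Agent.KMQ (Halt Answers)

/-- the parameters -/
theorem params_n {N n : ℕ} (hN : 2 ^ 30 * len N ^ 5 ≤ N) (hn : n = N / (2 ^ 26 * len N ^ 5)) :
    8 * n ≤ nc N ∧ 12 * (2 ^ 20 * (Nat.log 2 n + 2) ^ 3 * n) ≤ nc N := by
  obtain ⟨l, hl⟩ : ∃ l, l = len N := ⟨_, rfl⟩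
  unfold nc
  rw [← hl] at hN hn ⊢
  have hl1 : 1 ≤ l := by rw [hl]; exact len_pos N
  have hl5 : 1 ≤ l ^ 5 := Nat.one_le_pow _ _ hl1
  have hN30 : 2 ^ 30 ≤ N := le_trans (by omega) hN
  have hlog : 30 ≤ Nat.log 2 N := Nat.le_log_of_pow_le (by norm_num) hN30
  have hl31 : 31 ≤ l := by rw [hl]; unfold len; omega
  have hnN : 2 ^ 26 * l ^ 5 * n ≤ N := by
    rw [hn, mul_comm]
    exact Nat.div_mul_le_self _ _
  have hn_le : n ≤ N := by rw [hn]; exact Nat.div_le_self _ _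
  have hlogn : Nat.log 2 n + 2 ≤ 2 * l := by
    have h1 : Nat.log 2 n ≤ Nat.log 2 N := Nat.log_mono_right hn_le
    have h2 : l = Nat.log 2 N + 1 := hl
    omega
  have hl4 : 31 * l ^ 4 ≤ l ^ 5 := by
    rw [pow_succ l 4, mul_comm]
    exact Nat.mul_le_mul_left _ hl31
  have h14 : l ≤ l ^ 4 := Nat.le_self_pow (by norm_num) l
  have h3 : 3 * (l + 1) ≤ 6 * l := by omega
  refine ⟨?_, ?_⟩
  · rw [Nat.le_div_iff_mul_le (by omega)]
    calc 8 * n * (3 * (l + 1)) ≤ 8 * n * (6 * l) := Nat.mul_le_mul_left _ h3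
      _ = 48 * l * n := by ring
      _ ≤ 2 ^ 26 * l ^ 5 * n := by
        refine Nat.mul_le_mul_right _ ?_
        omega
      _ ≤ N := hnN
  · rw [Nat.le_div_iff_mul_le (by omega)]
    calc 12 * (2 ^ 20 * (Nat.log 2 n + 2) ^ 3 * n) * (3 * (l + 1)) ≤
          12 * (2 ^ 20 * (2 * l) ^ 3 * n) * (6 * l) := by
            refine Nat.mul_le_mul (Nat.mul_le_mul_left _ (Nat.mul_le_mul_right _ (Nat.mul_le_mul_left _ ?_))) h3
            exact Nat.pow_le_pow_left hlogn 3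
      _ = 603979776 * l ^ 4 * n := by ring
      _ ≤ 2 ^ 26 * l ^ 5 * n := by
        refine Nat.mul_le_mul_right _ ?_
        omega
      _ ≤ N := hnN

/-- **Languages that agree with satisfiability on the formulas with even variables.** -/
theorem hard_agreesF (hE : ExistsCmp) : ∃ c x0 : ℝ, 0 < c ∧ 1 ≤ x0 ∧ ∀ L : List Bool → Prop,
    AgreesF L → Hard c x0 L := by
  obtain ⟨c, x0, hc, hx0, h⟩ := sat_time
  refine ⟨c / 2, max (2 ^ 54 : ℝ) (2 ^ 27 * x0), by positivity,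
    le_max_of_le_left (by norm_num), ?_⟩
  intro L hL N S η hS hx hη ι _ w V Γ _ P rej hw0 hw1 hP T hT
  have hS1 : (1 : ℝ) ≤ S := by exact_mod_cast hS
  have hS0 : (0 : ℝ) < S := by linarith
  have hl1 : (1 : ℝ) ≤ len N := by exact_mod_cast len_pos N
  have hl5 : (1 : ℝ) ≤ (len N : ℝ) ^ 5 := one_le_pow₀ hl1
  have hd : (0 : ℝ) < S * (len N : ℝ) ^ 5 := by positivity
  have hη0 : 0 ≤ η := le_trans (by positivity) hη
  have hx1 : 2 ^ 54 * (S * (len N : ℝ) ^ 5) ≤ N :=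
    le_trans (mul_le_mul_of_nonneg_right (le_max_left _ _) hd.le) hx
  have hx2 : 2 ^ 27 * x0 * (S * (len N : ℝ) ^ 5) ≤ N :=
    le_trans (mul_le_mul_of_nonneg_right (le_max_right _ _) hd.le) hx
  have hN : 2 ^ 30 * len N ^ 5 ≤ N := by
    have h1 : (2 ^ 30 : ℝ) * (len N : ℝ) ^ 5 ≤ N := by
      refine le_trans ?_ hx1
      have h2 : (len N : ℝ) ^ 5 ≤ S * (len N : ℝ) ^ 5 := le_mul_of_one_le_left (by positivity) hS1
      calc (2 ^ 30 : ℝ) * (len N : ℝ) ^ 5 ≤ 2 ^ 54 * (len N : ℝ) ^ 5 :=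
            mul_le_mul_of_nonneg_right (by norm_num) (by positivity)
        _ ≤ _ := mul_le_mul_of_nonneg_left h2 (by norm_num)
    exact_mod_cast h1
  obtain ⟨n, hn⟩ : ∃ n, n = N / (2 ^ 26 * len N ^ 5) := ⟨_, rfl⟩
  obtain ⟨hn8, hG⟩ := params_n hN hn
  have hn1 : 1 ≤ n := by
    rw [hn, Nat.le_div_iff_mul_le (by have := len_pos N; positivity)]
    calc 1 * (2 ^ 26 * len N ^ 5) ≤ 2 ^ 30 * len N ^ 5 := by
          rw [one_mul]
          exact Nat.mul_le_mul_right _ (by norm_num)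
      _ ≤ N := hN
  -- the size of the blocks
  have hnu : (2 ^ 26 * len N ^ 5 : ℝ) * n ≤ N := by
    have h1 : 2 ^ 26 * len N ^ 5 * n ≤ N := by
      rw [hn, mul_comm]
      exact Nat.div_mul_le_self _ _
    exact_mod_cast h1
  have hnl : (N : ℝ) ≤ 2 ^ 27 * (len N : ℝ) ^ 5 * n := by
    have h1 : N < 2 ^ 26 * len N ^ 5 * (n + 1) := by
      rw [hn]
      exact Nat.lt_mul_div_succ _ (by have := len_pos N; positivity)
    have h2 : 2 ^ 26 * len N ^ 5 * (n + 1) ≤ 2 ^ 27 * len N ^ 5 * n := by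
      calc 2 ^ 26 * len N ^ 5 * (n + 1) ≤ 2 ^ 26 * len N ^ 5 * (2 * n) := Nat.mul_le_mul_left _ (by omega)
        _ = 2 ^ 27 * len N ^ 5 * n := by ring
    have h3 : N ≤ 2 ^ 27 * len N ^ 5 * n := by omega
    exact_mod_cast h3
  have hxS : x0 * S ≤ n := by
    have h1 : 2 ^ 27 * (len N : ℝ) ^ 5 * (x0 * S) ≤ 2 ^ 27 * (len N : ℝ) ^ 5 * n := by
      calc (2 : ℝ) ^ 27 * (len N : ℝ) ^ 5 * (x0 * S) = 2 ^ 27 * x0 * (S * (len N : ℝ) ^ 5) := by ring
        _ ≤ (N : ℝ) := hx2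
        _ ≤ _ := hnl
    exact le_of_mul_le_mul_left h1 (by positivity)
  have key := h L hL N n _ S η hS hxS hn8 hG hη (fun e he h8 h4 => hE n e he h8 h4)
    ι w V Γ P rej hw0 hw1 hP T hT
  refine le_trans ?_ key
  obtain ⟨r, hr⟩ : ∃ r : ℝ, r = N / (S * (len N : ℝ) ^ 5) := ⟨_, rfl⟩
  obtain ⟨q, hq⟩ : ∃ q : ℝ, q = n / S := ⟨_, rfl⟩
  rw [← hr, ← hq]
  have hqr : 2 ^ 26 * q ≤ r := by
    rw [hr, hq, le_div_iff₀ hd]
    calc (2 : ℝ) ^ 26 * ((n : ℝ) / S) * (S * (len N : ℝ) ^ 5) = 2 ^ 26 * (len N : ℝ) ^ 5 * n := by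
          field_simp
      _ ≤ (N : ℝ) := hnu
  have hrq : r ≤ 2 ^ 27 * q := by
    rw [hr, hq, div_le_iff₀ hd]
    calc (N : ℝ) ≤ 2 ^ 27 * (len N : ℝ) ^ 5 * n := hnl
      _ = 2 ^ 27 * ((n : ℝ) / S) * (S * (len N : ℝ) ^ 5) := by field_simp
  have hr54 : 2 ^ 54 ≤ r := by
    rw [hr, le_div_iff₀ hd]
    exact hx1
  have hq27 : 2 ^ 27 ≤ q := by linarith
  have he : Real.exp 8 ≤ 2 ^ 27 := by
    have h1 : Real.exp 8 = Real.exp 1 ^ 8 := by rw [← Real.exp_nat_mul]; norm_num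
    rw [h1]
    calc Real.exp 1 ^ 8 ≤ 3 ^ 8 :=
          pow_le_pow_left₀ (Real.exp_pos _).le (by have := Real.exp_one_lt_d9; linarith) 8
      _ ≤ 2 ^ 27 := by norm_num
  have h1 := log_tr (q := q) (r := r) hc.le (a := η * N) (by positivity) (by linarith) (by linarith)
    (hrq.trans (by nlinarith))
  calc c / 2 * η * N * Real.log r / Real.log (Real.log r) =
        c / 2 * (η * N) * Real.log r / Real.log (Real.log r) := by ring
    _ ≤ c * (η * N) * Real.log q / Real.log (Real.log q) := h1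
    _ = c * η * N * Real.log q / Real.log (Real.log q) := by ring

/-- **One pair of constants for all languages that agree with satisfiability.** -/
theorem hard_form : ∃ c x0 : ℝ, 0 < c ∧ 1 ≤ x0 ∧ ∀ L : List Bool → Prop, AgreesF L → Hard c x0 L :=
  hard_agreesF existsCmp

end Pool.Agent.KST
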