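import Pool.Agent.KST.Enc
import Pool.Agent.KCV.Slp

/-! Clauses that describe the computation of a straight line program. -/

namespace Pool.Agent.KST

open Pool.Agent.KCV

/-- clauses with three literals -/
abbrev Cl : Type := Li × Li × Li

/-- the assignment satisfies the clause -/
def cs (x : ℕ → Bool) (C : Cl) : Prop := x C.1.2 = C.1.1 ∨ x C.2.1.2 = C.2.1.1 ∨ x C.2.2.2 = C.2.2.1

/-- the variables of the clause are smaller than `V` -/
def vs (V : ℕ) (C : Cl) : Prop := C.1.2 < V ∧ C.2.1.2 < V ∧ C.2.2.2 < V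

theorem vs.mono {V V' : ℕ} {C : Cl} (h : vs V C) (hV : V ≤ V') : vs V' C :=
  ⟨lt_of_lt_of_le h.1 hV, lt_of_lt_of_le h.2.1 hV, lt_of_lt_of_le h.2.2 hV⟩

section
variable {m : ℕ}

/-- the variables `g0`, `g0 + 1`, ... have the values of the functions of the list, the last element of the
list first -/
def Gd (x : ℕ → Bool) (w0 g0 : ℕ) : List (BF m) → Prop
  | [] => True
  | f :: L => x (g0 + L.length) = f (fun i => x (w0 + i)) ∧ Gd x w0 g0 L

theorem gd_mem {w0 g0 : ℕ} {L : List (BF m)} {f : BF m} (h : f ∈ L) :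
    ∃ v < g0 + L.length, ∀ x, Gd x w0 g0 L → x v = f (fun i => x (w0 + i)) := by
  induction L with
  | nil => simp at h
  | cons a L ih =>
    rcases List.mem_cons.1 h with rfl | h
    · exact ⟨g0 + L.length, by simp, fun x hx => hx.1⟩
    · obtain ⟨v, hv, h'⟩ := ih h
      exact ⟨v, by simp only [List.length_cons]; omega, fun x hx => h' x hx.2⟩

theorem av_var {w0 g0 k0 : ℕ} (hw : w0 + m ≤ g0) (hk : k0 + 2 ≤ g0) {L : List (BF m)} {f : BF m}
    (h : Av L f) : ∃ v < g0 + L.length, ∀ x, x k0 = false → x (k0 + 1) = true → Gd x w0 g0 L →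
      x v = f (fun i => x (w0 + i)) := by
  rcases h with h | ⟨l, rfl⟩ | ⟨b, rfl⟩
  · obtain ⟨v, hv, h'⟩ := gd_mem (w0 := w0) (g0 := g0) h
    exact ⟨v, hv, fun x _ _ hx => h' x hx⟩
  · exact ⟨w0 + l, by omega, fun x _ _ _ => rfl⟩
  · cases b
    · exact ⟨k0, by omega, fun x h0 _ _ => h0⟩
    · exact ⟨k0 + 1, by omega, fun x _ h1 _ => h1⟩

theorem gate_iff (z p q : Bool) : ((z = true ∨ z = true ∨ p = true) ∧ (z = true ∨ z = true ∨ q = true) ∧
    (z = false ∨ p = false ∨ q = false)) ↔ z = !(p && q) := by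
  revert z p q
  decide

/-- the clauses of a straight line program -/
theorem exists_cls {w0 g0 k0 : ℕ} (hw : w0 + m ≤ g0) (hk : k0 + 2 ≤ g0) {L : List (BF m)} (h : Slp L) :
    ∃ Φ : List Cl, Φ.length = 3 * L.length ∧ (∀ C ∈ Φ, vs (g0 + L.length) C) ∧
      ∀ x, x k0 = false → x (k0 + 1) = true → ((∀ C ∈ Φ, cs x C) ↔ Gd x w0 g0 L) := by
  induction h with
  | nil =>
    refine ⟨[], rfl, fun C hC => ?_, fun x _ _ => ?_⟩
    · simp at hC
    · simp [Gd]
  | @cons L p q h hp hq ih =>
    obtain ⟨Φ, h1, h2, h3⟩ := ih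
    obtain ⟨vp, hvp, hp'⟩ := av_var hw hk hp
    obtain ⟨vq, hvq, hq'⟩ := av_var hw hk hq
    refine ⟨((true, g0 + L.length), (true, g0 + L.length), (true, vp)) ::
      ((true, g0 + L.length), (true, g0 + L.length), (true, vq)) ::
      ((false, g0 + L.length), (false, vp), (false, vq)) :: Φ, ?_, fun C hC => ?_, fun x h0 h1' => ?_⟩
    · simp only [List.length_cons]
      omega
    · simp only [List.mem_cons, List.length_cons] at hC ⊢
      rcases hC with rfl | rfl | rfl | hC
      · exact ⟨by simp, by simp, by simp; omega⟩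
      · exact ⟨by simp, by simp, by simp; omega⟩
      · exact ⟨by simp, by simp; omega, by simp; omega⟩
      · exact (h2 C hC).mono (by omega)
    · have hh := h3 x h0 h1'
      have key := gate_iff (x (g0 + L.length)) (x vp) (x vq)
      have e1 : (∀ C ∈ ((true, g0 + L.length), (true, g0 + L.length), (true, vp)) ::
          ((true, g0 + L.length), (true, g0 + L.length), (true, vq)) ::
          ((false, g0 + L.length), (false, vp), (false, vq)) :: Φ, cs x C) ↔
          x (g0 + L.length) = !(x vp && x vq) ∧ ∀ C ∈ Φ, cs x C := by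
        rw [List.forall_mem_cons, List.forall_mem_cons, List.forall_mem_cons, ← key, and_assoc, and_assoc]
        exact Iff.rfl
      rw [e1, hh]
      constructor
      · rintro ⟨h4, h5⟩
        refine ⟨?_, h5⟩
        rw [h4, hp' x h0 h1' h5, hq' x h0 h1' h5]
        rfl
      · rintro ⟨h4, h5⟩
        refine ⟨?_, h5⟩
        rw [h4, hp' x h0 h1' h5, hq' x h0 h1' h5]
        rfl

/-- the values of the functions of the list -/
theorem gd_ext (x : ℕ → Bool) {w0 g0 : ℕ} (hw : w0 + m ≤ g0) (L : List (BF m)) :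
    Gd (fun v => if v < g0 then x v else (L.reverse.getD (v - g0) fun _ => false) fun i => x (w0 + i))
      w0 g0 L := by
  have key : ∀ L1 L2 : List (BF m), L = L1 ++ L2 → Gd (fun v => if v < g0 then x v else
      (L.reverse.getD (v - g0) fun _ => false) fun i => x (w0 + i)) w0 g0 L2 := by
    intro L1 L2
    induction L2 generalizing L1 with
    | nil => exact fun _ => trivial
    | cons f L2 ih =>
      intro hL
      refine ⟨?_, ih (L1 ++ [f]) (by rw [hL]; simp)⟩
      have e1 : (fun i : Fin m => (fun v => if v < g0 then x v else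
          (L.reverse.getD (v - g0) fun _ => false) fun i => x (w0 + i)) (w0 + i)) = fun i : Fin m => x (w0 + i) := by
        funext i
        simp only
        rw [if_pos (by omega)]
      rw [e1]
      simp only
      rw [if_neg (by omega), Nat.add_sub_cancel_left]
      have e2 : L.reverse.getD L2.length (fun _ => false) = f := by
        rw [hL, List.reverse_append, List.reverse_cons, List.append_assoc, List.getD_append_right _ _ _ _ (by simp)]
        simp
      rw [e2]
  exact key [] L rfl

/-- **The formula of a function.** -/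
theorem exists_form {w0 g0 k0 G : ℕ} (hw : w0 + m ≤ g0) (hk : k0 + 2 ≤ g0) {g : BF m} (h : Cmp m G g) :
    ∃ Φ : List Cl, Φ.length ≤ 3 * G + 1 ∧ (∀ C ∈ Φ, vs (g0 + G) C) ∧
      (∀ x : ℕ → Bool, x k0 = false → x (k0 + 1) = true → (∀ C ∈ Φ, cs x C) →
        g (fun i => x (w0 + i)) = true) ∧
      ∀ x : ℕ → Bool, x k0 = false → x (k0 + 1) = true → g (fun i => x (w0 + i)) = true →
        ∃ x' : ℕ → Bool, (∀ v < g0, x' v = x v) ∧ ∀ C ∈ Φ, cs x' C := by
  obtain ⟨L, ⟨hL, _, hlen⟩, hav⟩ := h
  rw [List.length_nil, zero_add] at hlen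
  obtain ⟨Φ, h1, h2, h3⟩ := exists_cls hw hk hL
  obtain ⟨v, hv, h4⟩ := av_var hw hk hav
  refine ⟨((true, v), (true, v), (true, v)) :: Φ, ?_, fun C hC => ?_, fun x h0 h0' hx => ?_,
    fun x h0 h0' hx => ?_⟩
  · simp only [List.length_cons]
    omega
  · rcases List.mem_cons.1 hC with rfl | hC
    · exact ⟨by simp; omega, by simp; omega, by simp; omega⟩
    · exact (h2 C hC).mono (by omega)
  · rw [List.forall_mem_cons] at hx
    have hG := (h3 x h0 h0').1 hx.2
    rw [← h4 x h0 h0' hG]
    have := hx.1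
    unfold cs at this
    simpa using this
  · have hG := gd_ext x hw L
    set x' : ℕ → Bool := fun v => if v < g0 then x v else
      (L.reverse.getD (v - g0) fun _ => false) fun i => x (w0 + i) with hx'
    have e0 : ∀ v < g0, x' v = x v := fun v hv => by rw [hx']; simp only; rw [if_pos hv]
    have e1 : (fun i : Fin m => x' (w0 + i)) = fun i : Fin m => x (w0 + i) := by
      funext i
      exact e0 _ (by omega)
    have h5 : x' k0 = false := by rw [e0 _ (by omega), h0]
    have h6 : x' (k0 + 1) = true := by rw [e0 _ (by omega), h0']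
    refine ⟨x', e0, ?_⟩
    rw [List.forall_mem_cons]
    refine ⟨?_, (h3 x' h5 h6).2 hG⟩
    have : x' v = true := by rw [h4 x' h5 h6 hG, e1, hx]
    unfold cs
    simp [this]

end

end Pool.Agent.KST
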