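import Pool.Agent.KCV.Defs

/-! Satisfiability of conjunctions of clauses with three literals, in the standard encoding. -/

namespace Pool.Agent.KST

open Pool.Agent.KCV (len lt ptr alt)

/-- The sign of literal `q` of a word. A literal is written with `1 + len N` letters: its sign and the binary
digits of the number of its variable, the last one first. -/
def sgn (y : List Bool) (q : ℕ) : Bool := lt y (q * (len y.length + 1))

/-- the number of the variable of literal `q` -/
def var (y : List Bool) (q : ℕ) : ℕ := ptr y (q * (len y.length + 1) + 1)

/-- the number of clauses of words of length `N` -/
def nc (N : ℕ) : ℕ := N / (3 * (len N + 1))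

/-- The assignment `x` satisfies all clauses of the word `y`. Clause `c` consists of the literals `3 * c`,
`3 * c + 1` and `3 * c + 2`, and it is satisfied if `x` gives to the variable of one of them the value of its
sign. -/
def Sats (y : List Bool) (x : ℕ → Bool) : Prop :=
  ∀ c < nc y.length, ∃ j < 3, x (var y (3 * c + j)) = sgn y (3 * c + j)

/-- **Satisfiability of formulas with three literals per clause.** -/
def Sat3 (y : List Bool) : Prop := ∃ x, Sats y x

/-- **Quantified formulas with three literals per clause.** The variables with even numbers are quantified
existentially and those with odd numbers universally, in increasing order. -/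
def Qbf3 (y : List Bool) : Prop := alt (2 ^ len y.length) 0 (fun _ => true) (Sats y)

/-- The language agrees with satisfiability on the formulas in which all variables have even numbers. -/
def AgreesF (L : List Bool → Prop) : Prop :=
  ∀ y, (∀ q < 3 * nc y.length, var y q % 2 = 0) → (L y ↔ Sat3 y)

end Pool.Agent.KST
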