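import Pool.Agent.KST.Defs
import Pool.Agent.KCV.Bits

/-! Words with given clauses. -/

namespace Pool.Agent.KST

open Pool.Agent.KCV

/-- the literals: a sign and a number; the number of the variable is twice this number -/
abbrev Li : Type := Bool × ℕ

/-- letter `i` of a literal -/
def lbit (a : Li) (i : ℕ) : Bool := if i = 0 then a.1 else (2 * a.2).testBit (i - 1)

/-- the word of length `N` with the literals `F q` -/
def enc (N : ℕ) (F : ℕ → Li) (p : Fin N) : Bool :=
  lbit (F ((p : ℕ) / (len N + 1))) ((p : ℕ) % (len N + 1))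

theorem pos_lt {l q i N : ℕ} (h : (q + 1) * (l + 1) ≤ N) (hi : i ≤ l) : q * (l + 1) + i < N := by
  have : (q + 1) * (l + 1) = q * (l + 1) + (l + 1) := by ring
  omega

theorem pos_div {l q i : ℕ} (hi : i ≤ l) : (q * (l + 1) + i) / (l + 1) = q ∧ (q * (l + 1) + i) % (l + 1) = i := by
  constructor
  · rw [mul_comm, Nat.mul_add_div (by omega), Nat.div_eq_of_lt (by omega), add_zero]
  · rw [mul_comm, Nat.mul_add_mod, Nat.mod_eq_of_lt (by omega)]

theorem nc_fits {N q : ℕ} (h : q < 3 * nc N) : (q + 1) * (len N + 1) ≤ N := by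
  unfold nc at h
  have h1 := Nat.div_mul_le_self N (3 * (len N + 1))
  have h2 : (q + 1) * (len N + 1) ≤ 3 * (N / (3 * (len N + 1))) * (len N + 1) :=
    Nat.mul_le_mul_right _ h
  have h3 : 3 * (N / (3 * (len N + 1))) * (len N + 1) =
      N / (3 * (len N + 1)) * (3 * (len N + 1)) := by ring
  omega

section
variable {N : ℕ} (F : ℕ → Li)

theorem enc_at {q i : ℕ} (h : (q + 1) * (len N + 1) ≤ N) (hi : i ≤ len N) :
    lt (List.ofFn (enc N F)) (q * (len N + 1) + i) = lbit (F q) i := by
  rw [lt_ofFn _ (pos_lt h hi)]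
  unfold enc
  simp only
  rw [(pos_div hi).1, (pos_div hi).2]

theorem sgn_enc {q : ℕ} (h : (q + 1) * (len N + 1) ≤ N) :
    sgn (List.ofFn (enc N F)) q = (F q).1 := by
  unfold sgn
  rw [List.length_ofFn]
  have := enc_at F h (Nat.zero_le _)
  rw [add_zero] at this
  rw [this]
  rfl

theorem var_enc {q : ℕ} (h : (q + 1) * (len N + 1) ≤ N) (hv : 2 * (F q).2 < 2 ^ len N) :
    var (List.ofFn (enc N F)) q = 2 * (F q).2 := by
  unfold var
  rw [ptr_eq, List.length_ofFn, ← dig_testBit hv]
  refine dig_congr fun i hi => ?_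
  rw [show q * (len N + 1) + 1 + i = q * (len N + 1) + (i + 1) by ring, enc_at F h hi]
  unfold lbit
  rw [if_neg (by omega)]
  rfl

/-- the conjunction of the clauses -/
def Sa (M : ℕ) (F : ℕ → Li) (x : ℕ → Bool) : Prop := ∀ c < M, ∃ j < 3, x (F (3 * c + j)).2 = (F (3 * c + j)).1

theorem sats_enc (hF : ∀ q < 3 * nc N, 2 * (F q).2 < 2 ^ len N) (x : ℕ → Bool) :
    Sats (List.ofFn (enc N F)) x ↔ Sa (nc N) F (fun v => x (2 * v)) := by
  unfold Sats Sa
  rw [List.length_ofFn]
  refine forall_congr' fun c => forall_congr' fun hc => ?_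
  refine exists_congr fun j => and_congr_right fun hj => ?_
  rw [sgn_enc F (nc_fits (by omega)), var_enc F (nc_fits (by omega)) (hF _ (by omega))]

/-- **The formula of a word.** -/
theorem sat_enc (hF : ∀ q < 3 * nc N, 2 * (F q).2 < 2 ^ len N) :
    Sat3 (List.ofFn (enc N F)) ↔ ∃ x, Sa (nc N) F x := by
  unfold Sat3
  constructor
  · rintro ⟨x, hx⟩
    exact ⟨_, (sats_enc F hF x).1 hx⟩
  · rintro ⟨x, hx⟩
    refine ⟨fun v => x (v / 2), (sats_enc F hF _).2 ?_⟩
    have : (fun v => x (2 * v / 2)) = x := by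
      funext v
      rw [Nat.mul_div_cancel_left v (by norm_num)]
    rw [this]
    exact hx

/-- only the variables with even numbers matter -/
theorem alt_even {φ : (ℕ → Bool) → Prop} (hφ : ∀ a a', (∀ v, a (2 * v) = a' (2 * v)) → φ a → φ a')
    (k i : ℕ) (a : ℕ → Bool) :
    alt k i a φ ↔ ∃ a' : ℕ → Bool, (∀ v, ¬ (i ≤ 2 * v ∧ 2 * v < i + k) → a' (2 * v) = a (2 * v)) ∧ φ a' := by
  induction k generalizing i a with
  | zero =>
    constructor
    · intro h
      exact ⟨a, fun _ _ => rfl, h⟩
    · rintro ⟨a', h, h'⟩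
      exact hφ a' a (fun v => h v (by omega)) h'
  | succ k ih =>
    unfold alt
    split_ifs with hi
    · constructor
      · rintro ⟨b, hb⟩
        obtain ⟨a', h1, h2⟩ := (ih _ _).1 hb
        refine ⟨a', fun v hv => ?_, h2⟩
        rw [h1 v (by omega), Function.update_of_ne (by omega)]
      · rintro ⟨a', h1, h2⟩
        refine ⟨a' i, (ih _ _).2 ⟨a', fun v hv => ?_, h2⟩⟩
        by_cases hv' : 2 * v = i
        · rw [hv', Function.update_self]
        · rw [Function.update_of_ne hv']
          exact h1 v (by omega)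
    · have key : ∀ b, alt k (i + 1) (Function.update a i b) φ ↔ ∃ a' : ℕ → Bool,
          (∀ v, ¬ (i ≤ 2 * v ∧ 2 * v < i + (k + 1)) → a' (2 * v) = a (2 * v)) ∧ φ a' := by
        intro b
        rw [ih]
        refine exists_congr fun a' => and_congr_left fun _ => forall_congr' fun v => ?_
        rw [Function.update_of_ne (by omega)]
        constructor
        · intro h h'
          exact h (by omega)
        · intro h h'
          exact h (by omega)
      constructor
      · intro h
        exact (key true).1 (h true)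
      · intro h b
        exact (key b).2 h

/-- all variables of the word are even -/
theorem var_even (hF : ∀ q < 3 * nc N, 2 * (F q).2 < 2 ^ len N) :
    ∀ q < 3 * nc (List.ofFn (enc N F)).length, var (List.ofFn (enc N F)) q % 2 = 0 := by
  intro q hq
  rw [List.length_ofFn] at hq
  rw [var_enc F (nc_fits hq) (hF q hq)]
  omega

end

theorem agreesF_sat3 : AgreesF Sat3 := fun _ _ => Iff.rfl

/-- **Quantified formulas.** -/
theorem agreesF_qbf3 : AgreesF Qbf3 := by
  intro y hy
  have hcong : ∀ a a' : ℕ → Bool, (∀ v, 2 * v < 2 ^ len y.length → a (2 * v) = a' (2 * v)) →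
      Sats y a → Sats y a' := by
    intro a a' h ha c hc
    obtain ⟨j, hj, h'⟩ := ha c hc
    refine ⟨j, hj, ?_⟩
    have h1 := hy (3 * c + j) (by omega)
    have h2 : var y (3 * c + j) < 2 ^ len y.length := ptr_lt _ _
    have h3 : var y (3 * c + j) = 2 * (var y (3 * c + j) / 2) := by omega
    rw [h3] at h2 h' ⊢
    rw [← h _ h2]
    exact h'
  unfold Qbf3 Sat3
  rw [alt_even fun a a' h => hcong a a' fun v _ => h v]
  constructor
  · rintro ⟨a, _, ha⟩
    exact ⟨a, ha⟩
  · rintro ⟨x, hx⟩
    refine ⟨fun v => if v < 2 ^ len y.length then x v else true, fun v hv => ?_,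
      hcong x _ (fun v hv => ?_) hx⟩
    · simp only
      rw [if_neg (by omega)]
    · rw [if_pos hv]

end Pool.Agent.KST
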