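import Pool.Agent.KST.Circ

/-! A formula that is satisfiable if and only if a function has the value one on one of many blocks. -/

namespace Pool.Agent.KST

open Pool.Agent.KCV

/-- clauses which imply that one of the variables `u`, ..., `u + k - 1` is true -/
def chain (u p k : ℕ) : List Cl :=
  ((false, p), (false, p), (false, p)) :: ((true, p + k), (true, p + k), (true, p + k)) ::
    (List.range k).map fun j => ((false, p + (j + 1)), (true, p + j), (true, u + j))

theorem length_chain (u p k : ℕ) : (chain u p k).length = k + 2 := by simp [chain]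

theorem vs_chain {u p k V : ℕ} (hu : u + k ≤ V) (hp : p + k < V) : ∀ C ∈ chain u p k, vs V C := by
  intro C hC
  unfold chain at hC
  simp only [List.mem_cons, List.mem_map, List.mem_range] at hC
  rcases hC with rfl | rfl | ⟨j, hj, rfl⟩
  · exact ⟨by simp; omega, by simp; omega, by simp; omega⟩
  · exact ⟨by simp; omega, by simp; omega, by simp; omega⟩
  · exact ⟨by simp; omega, by simp; omega, by simp; omega⟩

theorem chain_sat {x : ℕ → Bool} {u p k : ℕ} (h : ∀ C ∈ chain u p k, cs x C) :
    ∃ j < k, x (u + j) = true := by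
  by_contra hcon
  push Not at hcon
  unfold chain at h
  rw [List.forall_mem_cons, List.forall_mem_cons] at h
  obtain ⟨h1, h2, h3⟩ := h
  have key : ∀ j ≤ k, x (p + j) = false := by
    intro j
    induction j with
    | zero =>
      intro _
      unfold cs at h1
      simpa using h1
    | succ j ih =>
      intro hj
      have h4 := h3 _ (List.mem_map_of_mem (List.mem_range.2 (show j < k by omega)))
      unfold cs at h4
      simp only at h4
      rcases h4 with h4 | h4 | h4
      · exact h4
      · rw [ih (by omega)] at h4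
        exact absurd h4 (by decide)
      · exact absurd h4 (hcon j (by omega))
  have h5 := key k le_rfl
  unfold cs at h2
  simp [h5] at h2

theorem chain_of {x : ℕ → Bool} {u p k b : ℕ} (hb : b < k) (hu : x (u + b) = true)
    (hp : ∀ j ≤ k, x (p + j) = decide (b < j)) : ∀ C ∈ chain u p k, cs x C := by
  intro C hC
  unfold chain at hC
  simp only [List.mem_cons, List.mem_map, List.mem_range] at hC
  rcases hC with rfl | rfl | ⟨j, hj, rfl⟩
  · left
    have := hp 0 (by omega)
    simpa using this
  · left
    have := hp k le_rfl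
    rw [decide_eq_true hb] at this
    exact this
  · unfold cs
    simp only
    rw [hp (j + 1) (by omega), hp j (by omega)]
    by_cases h1 : b < j
    · right; left
      exact decide_eq_true h1
    · by_cases h2 : b = j
      · right; right
        rw [← h2, hu]
      · left
        exact decide_eq_false (by omega)

/-- the table: if the variable `s0 + r` is true, then the variable `v` is the digit `r` of `v` -/
def tab (h s0 : ℕ) : List Cl :=
  (List.range (2 ^ h * h)).map fun t =>
    (((t / h).testBit (t % h), t / h), (false, s0 + t % h), (false, s0 + t % h))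

theorem length_tab (h s0 : ℕ) : (tab h s0).length = 2 ^ h * h := by simp [tab]

theorem vs_tab {h s0 V : ℕ} (h1 : 2 ^ h ≤ V) (h2 : s0 + h ≤ V) : ∀ C ∈ tab h s0, vs V C := by
  intro C hC
  unfold tab at hC
  simp only [List.mem_map, List.mem_range] at hC
  obtain ⟨t, ht, rfl⟩ := hC
  have h0 : 0 < h := by
    rcases Nat.eq_zero_or_pos h with h0 | h0
    · rw [h0] at ht; simp at ht
    · exact h0
  have h3 : t / h < 2 ^ h := Nat.div_lt_of_lt_mul (by rw [mul_comm]; exact ht)
  have h4 := Nat.mod_lt t h0
  exact ⟨by simp only; omega, by simp only; omega, by simp only; omega⟩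

theorem tab_sat {x : ℕ → Bool} {h s0 r v : ℕ} (hx : ∀ C ∈ tab h s0, cs x C) (hr : r < h)
    (hs : x (s0 + r) = true) (hv : v < 2 ^ h) : x v = v.testBit r := by
  have hm : v * h + r < 2 ^ h * h := by
    calc v * h + r < v * h + h := by omega
      _ = (v + 1) * h := by ring
      _ ≤ 2 ^ h * h := Nat.mul_le_mul_right _ hv
  have h1 := hx _ (List.mem_map_of_mem (List.mem_range.2 hm))
  have e1 : (v * h + r) / h = v := by
    rw [mul_comm, Nat.mul_add_div (by omega), Nat.div_eq_of_lt hr, add_zero]
  have e2 : (v * h + r) % h = r := by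
    rw [mul_comm, Nat.mul_add_mod, Nat.mod_eq_of_lt hr]
  rw [e1, e2] at h1
  unfold cs at h1
  simp only [hs] at h1
  simpa using h1

theorem tab_of {x : ℕ → Bool} {h s0 r : ℕ} (hv : ∀ v < 2 ^ h, x v = v.testBit r)
    (hs : ∀ r' < h, r' ≠ r → x (s0 + r') = false) : ∀ C ∈ tab h s0, cs x C := by
  intro C hC
  unfold tab at hC
  simp only [List.mem_map, List.mem_range] at hC
  obtain ⟨t, ht, rfl⟩ := hC
  have h0 : 0 < h := by
    rcases Nat.eq_zero_or_pos h with h0 | h0
    · rw [h0] at ht; simp at ht
    · exact h0
  have h3 : t / h < 2 ^ h := Nat.div_lt_of_lt_mul (by rw [mul_comm]; exact ht)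
  have h4 := Nat.mod_lt t h0
  unfold cs
  simp only
  by_cases h5 : t % h = r
  · left
    rw [hv _ h3, h5]
  · right; left
    exact hs _ h4 h5

/-- the number with the digits `r < h` of the word `k` of the blocks -/
def adr (h n : ℕ) (X : ℕ → ℕ → Bool) (k : ℕ) : ℕ := dig h fun r => X (k / n * h + r) (k % n)

/-- the clauses that contain the blocks -/
def wcl (h n u0 w0 : ℕ) (X : ℕ → ℕ → Bool) (c : ℕ) : Cl :=
  if c % 2 = 0 then ((true, adr h n X (c / 2)), (false, u0 + c / 2 / n), (false, w0 + c / 2 % n))
  else ((false, adr h n X (c / 2)), (false, u0 + c / 2 / n), (true, w0 + c / 2 % n))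

theorem pair_lt {b mb i n : ℕ} (hb : b < mb) (hi : i < n) : b * n + i < mb * n := by
  calc b * n + i < b * n + n := by omega
    _ = (b + 1) * n := by ring
    _ ≤ mb * n := Nat.mul_le_mul_right _ hb

theorem pair_div {b i n : ℕ} (hi : i < n) : (b * n + i) / n = b ∧ (b * n + i) % n = i := by
  constructor
  · rw [mul_comm, Nat.mul_add_div (by omega), Nat.div_eq_of_lt hi, add_zero]
  · rw [mul_comm, Nat.mul_add_mod, Nat.mod_eq_of_lt hi]

theorem wcl_sat {x : ℕ → Bool} {h n mb u0 w0 : ℕ} {X : ℕ → ℕ → Bool}
    (hx : ∀ c < 2 * (mb * n), cs x (wcl h n u0 w0 X c)) {b i : ℕ} (hb : b < mb) (hi : i < n)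
    (hu : x (u0 + b) = true) : x (w0 + i) = x (dig h fun r => X (b * h + r) i) := by
  have h0 := pair_lt hb hi
  have h1 := hx (2 * (b * n + i)) (by omega)
  have h2 := hx (2 * (b * n + i) + 1) (by omega)
  obtain ⟨e1, e2⟩ := pair_div (b := b) hi
  have e3 : 2 * (b * n + i) / 2 = b * n + i := by omega
  have e4 : (2 * (b * n + i) + 1) / 2 = b * n + i := by omega
  have e5 : 2 * (b * n + i) % 2 = 0 := by omega
  have e6 : ¬ (2 * (b * n + i) + 1) % 2 = 0 := by omega
  unfold wcl at h1 h2
  rw [if_pos e5, e3, e1, e2] at h1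
  rw [if_neg e6, e4, e1, e2] at h2
  unfold adr at h1 h2
  rw [e1, e2] at h1 h2
  unfold cs at h1 h2
  simp only [hu, Bool.true_eq_false, false_or] at h1 h2
  cases h3 : x (w0 + i)
  · rw [h3] at h2
    rcases h2 with h2 | h2
    · exact h2.symm
    · exact absurd h2 (by decide)
  · rw [h3] at h1
    rcases h1 with h1 | h1
    · exact h1.symm
    · exact absurd h1 (by decide)

theorem wcl_of {x : ℕ → Bool} {h n mb u0 w0 : ℕ} {X : ℕ → ℕ → Bool} {b : ℕ}
    (hu : ∀ b' < mb, b' ≠ b → x (u0 + b') = false)
    (hw : ∀ i < n, x (w0 + i) = x (dig h fun r => X (b * h + r) i)) :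
    ∀ c < 2 * (mb * n), cs x (wcl h n u0 w0 X c) := by
  intro c hc
  have h1 : c / 2 < n * mb := by rw [mul_comm]; omega
  have hn : 0 < n := by
    rcases Nat.eq_zero_or_pos n with h0 | h0
    · rw [h0] at h1; simp at h1
    · exact h0
  have h2 : c / 2 / n < mb := Nat.div_lt_of_lt_mul h1
  have h3 : c / 2 % n < n := Nat.mod_lt _ hn
  by_cases h4 : c / 2 / n = b
  · have h5 := hw _ h3
    have h6 : x (w0 + c / 2 % n) = x (adr h n X (c / 2)) := by
      unfold adr
      rw [h4]
      exact h5
    unfold wcl
    split_ifs with hc2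
    · unfold cs
      simp only
      rw [h6]
      cases x (adr h n X (c / 2)) <;> simp
    · unfold cs
      simp only
      rw [h6]
      cases x (adr h n X (c / 2)) <;> simp
  · have h5 := hu _ h2 h4
    unfold wcl
    split_ifs with hc2
    · right; left; exact h5
    · right; left; exact h5

/-- the first variable of the inputs of the circuit -/
def w0 (h : ℕ) : ℕ := 2 ^ h + 2 * h + 1

/-- the first variable of the selection of a block -/
def u0 (h n : ℕ) : ℕ := w0 h + n

/-- the first variable of the second chain -/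
def p0 (h n mb : ℕ) : ℕ := u0 h n + mb

/-- the variable that is false -/
def k0 (h n mb : ℕ) : ℕ := p0 h n mb + mb + 1

/-- the first variable of the gates -/
def g0 (h n mb : ℕ) : ℕ := k0 h n mb + 2

/-- the clauses that do not contain the blocks -/
def rest (h n mb : ℕ) (Φ : List Cl) : List Cl :=
  chain (2 ^ h) (2 ^ h + h) h ++ (chain (u0 h n) (p0 h n mb) mb ++
    (((false, k0 h n mb), (false, k0 h n mb), (false, k0 h n mb)) ::
      ((true, k0 h n mb + 1), (true, k0 h n mb + 1), (true, k0 h n mb + 1)) :: (tab h (2 ^ h) ++ Φ)))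

theorem length_rest (h n mb : ℕ) (Φ : List Cl) :
    (rest h n mb Φ).length = h + mb + 2 ^ h * h + 6 + Φ.length := by
  unfold rest
  simp only [List.length_append, List.length_cons, length_chain, length_tab]
  omega

theorem vs_rest {h n mb G : ℕ} {Φ : List Cl} (hΦ : ∀ C ∈ Φ, vs (g0 h n mb + G) C) :
    ∀ C ∈ rest h n mb Φ, vs (g0 h n mb + G) C := by
  unfold g0 k0 p0 u0 w0 at *
  unfold rest k0 p0 u0 w0
  generalize hA : 2 ^ h = A at *
  intro C hC
  simp only [List.mem_append, List.mem_cons] at hC
  rcases hC with hC | hC | rfl | rfl | hC | hC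
  · exact vs_chain (by omega) (by omega) C hC
  · exact vs_chain (by omega) (by omega) C hC
  · exact ⟨by simp only; omega, by simp only; omega, by simp only; omega⟩
  · exact ⟨by simp only; omega, by simp only; omega, by simp only; omega⟩
  · exact vs_tab (by omega) (by omega) C hC
  · exact hΦ C hC

/-- the assignment for the block `b` and the slice `r` -/
def asg (h n mb b r : ℕ) (X : ℕ → ℕ → Bool) (v : ℕ) : Bool :=
  if v < 2 ^ h then v.testBit r
  else if v < 2 ^ h + h then decide (v = 2 ^ h + r)
  else if v < w0 h then decide (r < v - (2 ^ h + h))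
  else if v < u0 h n then X (b * h + r) (v - w0 h)
  else if v < p0 h n mb then decide (v = u0 h n + b)
  else if v < k0 h n mb then decide (b < v - p0 h n mb)
  else decide (v = k0 h n mb + 1)

/-- **The formula of the blocks.** -/
theorem gad_iff {n G : ℕ} {g : BF n} (hg : Cmp n G g) (h mb : ℕ) :
    ∃ Φ : List Cl, Φ.length ≤ 3 * G + 1 ∧ (∀ C ∈ Φ, vs (g0 h n mb + G) C) ∧ ∀ X : ℕ → ℕ → Bool,
      (∃ x : ℕ → Bool, (∀ c < 2 * (mb * n), cs x (wcl h n (u0 h n) (w0 h) X c)) ∧
        ∀ C ∈ rest h n mb Φ, cs x C) ↔ ∃ b < mb, ∃ r < h, g (fun i => X (b * h + r) i) = true := by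
  obtain ⟨Φ, h1, h2, h3, h4⟩ := exists_form (w0 := w0 h) (g0 := g0 h n mb) (k0 := k0 h n mb)
    (by unfold g0 k0 p0 u0; omega) (by unfold g0; omega) hg
  refine ⟨Φ, h1, h2, fun X => ⟨?_, ?_⟩⟩
  · rintro ⟨x, hx1, hx2⟩
    unfold rest at hx2
    rw [List.forall_mem_append, List.forall_mem_append, List.forall_mem_cons, List.forall_mem_cons,
      List.forall_mem_append] at hx2
    obtain ⟨a1, a2, a3, a4, a5, a6⟩ := hx2
    obtain ⟨r, hr, hr'⟩ := chain_sat a1
    obtain ⟨b, hb, hb'⟩ := chain_sat a2
    have a3' : x (k0 h n mb) = false := by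
      unfold cs at a3
      simpa using a3
    have a4' : x (k0 h n mb + 1) = true := by
      unfold cs at a4
      simpa using a4
    have h5 := h3 x a3' a4' a6
    refine ⟨b, hb, r, hr, ?_⟩
    have e1 : (fun i : Fin n => x (w0 h + i)) = fun i : Fin n => X (b * h + r) i := by
      funext i
      rw [wcl_sat hx1 hb i.2 hb', tab_sat a5 hr hr' (dig_lt _ _), testBit_dig hr]
    rw [e1] at h5
    exact h5
  · rintro ⟨b, hb, r, hr, hgr⟩
    have f1 : ∀ v < 2 ^ h, asg h n mb b r X v = v.testBit r := by
      intro v hv
      unfold asg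
      rw [if_pos hv]
    have f2 : ∀ j < h, asg h n mb b r X (2 ^ h + j) = decide (j = r) := by
      intro j hj
      unfold asg
      rw [if_neg (by omega), if_pos (by omega)]
      exact decide_eq_decide.2 (by omega)
    have f3 : ∀ j ≤ h, asg h n mb b r X (2 ^ h + h + j) = decide (r < j) := by
      intro j hj
      unfold asg
      rw [if_neg (by omega), if_neg (by omega), if_pos (by unfold w0; omega), Nat.add_sub_cancel_left]
    have f4 : ∀ i < n, asg h n mb b r X (w0 h + i) = X (b * h + r) i := by
      intro i hi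
      unfold asg
      rw [if_neg (by unfold w0; omega), if_neg (by unfold w0; omega), if_neg (by omega),
        if_pos (by unfold u0; omega), Nat.add_sub_cancel_left]
    have f5 : ∀ j < mb, asg h n mb b r X (u0 h n + j) = decide (j = b) := by
      intro j hj
      unfold asg
      rw [if_neg (by unfold u0 w0; omega), if_neg (by unfold u0 w0; omega),
        if_neg (by unfold u0; omega), if_neg (by omega), if_pos (by unfold p0; omega)]
      exact decide_eq_decide.2 (by omega)
    have f6 : ∀ j ≤ mb, asg h n mb b r X (p0 h n mb + j) = decide (b < j) := by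
      intro j hj
      unfold asg
      rw [if_neg (by unfold p0 u0 w0; omega), if_neg (by unfold p0 u0 w0; omega),
        if_neg (by unfold p0 u0; omega), if_neg (by unfold p0; omega), if_neg (by omega),
        if_pos (by unfold k0; omega), Nat.add_sub_cancel_left]
    have f7 : ∀ j, asg h n mb b r X (k0 h n mb + j) = decide (j = 1) := by
      intro j
      unfold asg
      rw [if_neg (by unfold k0 p0 u0 w0; omega), if_neg (by unfold k0 p0 u0 w0; omega),
        if_neg (by unfold k0 p0 u0; omega), if_neg (by unfold k0 p0; omega),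
        if_neg (by unfold k0; omega), if_neg (by omega)]
      exact decide_eq_decide.2 (by omega)
    obtain ⟨x, hx1, hx2⟩ := h4 (asg h n mb b r X) (by have := f7 0; simpa using this)
      (by have := f7 1; simpa using this) (by
        have e1 : (fun i : Fin n => asg h n mb b r X (w0 h + i)) = fun i : Fin n => X (b * h + r) i := by
          funext i
          exact f4 i i.2
        rw [e1]
        exact hgr)
    have hA : 2 ^ h + h + h < g0 h n mb := by unfold g0 k0 p0 u0 w0; omega
    have hB : w0 h + n ≤ u0 h n ∧ u0 h n + mb ≤ p0 h n mb ∧ p0 h n mb + mb < k0 h n mb ∧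
        k0 h n mb + 1 < g0 h n mb := by unfold g0 k0 p0 u0; omega
    refine ⟨x, wcl_of (b := b) ?_ ?_, ?_⟩
    · intro b' hb' hne
      rw [hx1 _ (by omega), f5 _ hb']
      exact decide_eq_false hne
    · intro i hi
      have h5 := dig_lt h fun r => X (b * h + r) i
      rw [hx1 _ (by omega), f4 i hi, hx1 _ (by omega), f1 _ h5, testBit_dig hr]
    · unfold rest
      rw [List.forall_mem_append, List.forall_mem_append, List.forall_mem_cons, List.forall_mem_cons,
        List.forall_mem_append]
      refine ⟨chain_of (b := r) hr ?_ ?_, chain_of (b := b) hb ?_ ?_, ?_, ?_, tab_of (r := r) ?_ ?_, hx2⟩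
      · rw [hx1 _ (by omega), f2 _ hr]
        exact decide_eq_true rfl
      · intro j hj
        rw [hx1 _ (by omega), f3 _ hj]
      · rw [hx1 _ (by omega), f5 _ hb]
        exact decide_eq_true rfl
      · intro j hj
        rw [hx1 _ (by omega), f6 _ hj]
      · left
        simp only
        rw [hx1 _ (by omega)]
        have := f7 0
        simpa using this
      · left
        simp only
        rw [hx1 _ (by omega), f7 1]
        rfl
      · intro v hv
        rw [hx1 _ (by omega), f1 _ hv]
      · intro r' hr' hne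
        rw [hx1 _ (by omega), f2 _ hr']
        exact decide_eq_false hne

end Pool.Agent.KST
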