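import Pool.Agent.KST.HWord
import Pool.Agent.KST.All

/-! Two-sided error for Horn formulas. -/

namespace Pool.Agent.KST

open Finset Pool.Agent.KNL Pool.Agent.KD Pool.Agent.KE Pool.Agent.KH Pool.Agent.KCV
open Pool.Agent.KMQ (Halt Answers)

/-- the parameters of the Horn formula -/
theorem hparams {N n G : ℕ} (hn : 1 ≤ n) (h8 : 16 * n ≤ nc N) (hG : 12 * G ≤ nc N) (hN : 24 ≤ len N) :
    ∃ h B : ℕ, 1 ≤ B ∧ 1 ≤ B * h ∧ h + 1 ≤ len N ∧ 2 * (B * n) ≤ nc N ∧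
      2 * (2 ^ h + 2 ^ h + 2 * (3 + 2 * (B * n) + G)) ≤ 2 ^ len N ∧
      2 * (B * n) + (4 + 2 ^ h + 4 * (B * n) + 3 * G) ≤ nc N ∧ N ≤ 1152 * (B * h * n) := by
  obtain ⟨h, hh⟩ : ∃ h, h = len N / 3 := ⟨_, rfl⟩
  obtain ⟨B, hB⟩ : ∃ B, B = nc N / (16 * n) := ⟨_, rfl⟩
  have h1 : 8 ≤ h := by omega
  have h2 := small_tab h1 (N := N) (by omega) (by omega)
  have h3 : 1 ≤ B := by
    rw [hB]
    exact (Nat.one_le_div_iff (by omega)).2 h8
  have h4 : 16 * (B * n) ≤ nc N := by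
    have := Nat.div_mul_le_self (nc N) (16 * n)
    rw [← hB] at this
    calc 16 * (B * n) = B * (16 * n) := by ring
      _ ≤ nc N := this
  have h5 : nc N ≤ 32 * (B * n) := by
    have h6 := Nat.lt_mul_div_succ (nc N) (show 0 < 16 * n by omega)
    rw [← hB] at h6
    have e1 : 16 * n * (B + 1) = 16 * (B * n) + 16 * n := by ring
    have h7 : n ≤ B * n := Nat.le_mul_of_pos_left _ h3
    omega
  have h9 : N < 3 * (len N + 1) * (nc N + 1) := by
    unfold nc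
    exact Nat.lt_mul_div_succ _ (by omega)
  have h10 : 3 * nc N ≤ N := by
    have : nc N * (3 * (len N + 1)) ≤ N := Nat.div_mul_le_self _ _
    calc 3 * nc N = nc N * 3 := by ring
      _ ≤ nc N * (3 * (len N + 1)) := Nat.mul_le_mul_left _ (by omega)
      _ ≤ N := this
  have h11 : N < 2 ^ len N := lt_two_len N
  have h12 : 2 ^ h ≤ 2 ^ h * h := Nat.le_mul_of_pos_right _ (by omega)
  refine ⟨h, B, h3, Nat.mul_pos h3 (by omega), by omega, by omega, by omega, by omega, ?_⟩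
  have h13 : 3 * (len N + 1) ≤ 18 * h := by omega
  calc N ≤ 3 * (len N + 1) * (nc N + 1) := h9.le
    _ ≤ 18 * h * (2 * nc N) := Nat.mul_le_mul h13 (by omega)
    _ ≤ 18 * h * (2 * (32 * (B * n))) := Nat.mul_le_mul_left _ (by omega)
    _ = 1152 * (B * h * n) := by ring

open Classical in
/-- **The time bound in terms of circuits.** -/
theorem horn_time : ∃ c x0 : ℝ, 0 < c ∧ 1 ≤ x0 ∧ ∀ L : List Bool → Prop, AgreesH L →
    ∀ (N n G S : ℕ) (η : ℝ), 1 ≤ S → x0 * S ≤ n → 16 * n ≤ nc N → 12 * G ≤ nc N → 1 / 2 ^ S ≤ η →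
    (∀ e, 1 ≤ e → 8 * e ≤ n → 4 * n ≤ e ^ 2 → ∃ g : BF n, Bal g e ∧ Cmp n G g) →
    ∀ (ι : Type) [Fintype ι] (w : ι → ℝ) (V Γ : ι → Type) [∀ i, Fintype (V i)]
      (P : ∀ i, SBP (V i) (Γ i) (Fin N)) (rej : ∀ i, V i), (∀ i, 0 ≤ w i) → ∑ i, w i = 1 →
      (∀ i, Det (P i) ∧ Halt (P i) (rej i) ∧ rej i ≠ (P i).acc ∧ Fintype.card (V i) ≤ 2 ^ S) →
      ∀ T : ℕ, (∀ y, 1 / 2 + η ≤ ∑ i, if Answers L (P i) (rej i) T y then w i else 0) →
        c * η * N * Real.log (n / S) / Real.log (Real.log (n / S)) ≤ T := by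
  obtain ⟨c, x0, hc, hx0, h⟩ := Pool.Agent.KMR.time_absx 1152 (by norm_num)
  refine ⟨c, max x0 (2 ^ 20), hc, le_max_of_le_left hx0, ?_⟩
  intro L hL N n G S η hS hx h8 hG hη hg ι _ w V Γ _ P rej hw0 hw1 hP T hT
  have hS1 : (1 : ℝ) ≤ S := by exact_mod_cast hS
  have hx1 : x0 * S ≤ n := (mul_le_mul_of_nonneg_right (le_max_left _ _) (by linarith)).trans hx
  have hn : 2 ^ 20 ≤ n := by
    have h1 : (2 : ℝ) ^ 20 * S ≤ n := (mul_le_mul_of_nonneg_right (le_max_right _ _) (by linarith)).trans hx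
    have h2 : (2 : ℝ) ^ 20 ≤ n := le_trans (by nlinarith) h1
    exact_mod_cast h2
  have hlen : 24 ≤ len N := by
    have h1 : nc N ≤ N := Nat.div_le_self _ _
    have h2 : 2 ^ 24 ≤ N := by
      have : 16 * 2 ^ 20 = 2 ^ 24 := by norm_num
      omega
    have h3 : N < 2 ^ len N := lt_two_len N
    by_contra hcon
    have h4 : 2 ^ len N ≤ 2 ^ 24 := Nat.pow_le_pow_right (by norm_num) (by omega)
    omega
  obtain ⟨a, B, hB, hm, hh, hM, hV, hC, hK⟩ := hparams (by omega) h8 hG hlen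
  refine h N n (B * a) S η hS hx1 hm hK hη (pos hh hM) (fun b b' i i' => pos_inj hh hM b b' i i')
    (pull (phi (N := N) a n B) L) (fun e he h8 h4 => ?_) ι w V Γ
    (fun i => relab (phi (N := N) a n B) (P i)) hw0 hw1
    (fun i => ⟨det_relab (hP i).1, (hP i).2.2.2⟩) T (fun y => ?_)
  · obtain ⟨g, hbal, hcmp⟩ := hg e he h8 h4
    obtain ⟨z0, hz0⟩ := horn_blocks hcmp hh hM hB (by omega) hV hC
    refine ⟨g, hbal, z0, fun X => ?_⟩
    rw [pull_ofFn, hz0 X L hL]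
  · refine (hT (y ∘ phi a n B)).trans (Finset.sum_le_sum fun i _ => ?_)
    split_ifs with h1 h2 h2
    · exact le_rfl
    · exact absurd ((answers_relab h1).correct (det_relab (hP i).1) (halt_relab (hP i).2.1) (hP i).2.2.1) h2
    · exact hw0 i
    · exact le_rfl

/-- **Languages that agree with satisfiability on the Horn formulas with even variables.** -/
theorem hard_horn : ∃ c x0 : ℝ, 0 < c ∧ 1 ≤ x0 ∧ ∀ L : List Bool → Prop, AgreesH L → Hard c x0 L := by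
  obtain ⟨c, x0, hc, hx0, h⟩ := horn_time
  refine ⟨c / 2, max (2 ^ 54 : ℝ) (2 ^ 27 * x0), by positivity,
    le_max_of_le_left (by norm_num), ?_⟩
  intro L hL N S η hS hx hη ι _ w V Γ _ P rej hw0 hw1 hP T hT
  have hS1 : (1 : ℝ) ≤ S := by exact_mod_cast hS
  have hS0 : (0 : ℝ) < S := by linarith
  have hl1 : (1 : ℝ) ≤ len N := by exact_mod_cast len_pos N
  have hl5 : (1 : ℝ) ≤ (len N : ℝ) ^ 5 := one_le_pow₀ hl1
  have hd : (0 : ℝ) < S * (len N : ℝ) ^ 5 := by positivity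
  have hη0 : 0 ≤ η := le_trans (by positivity) hη
  have hx1 : 2 ^ 54 * (S * (len N : ℝ) ^ 5) ≤ N :=
    le_trans (mul_le_mul_of_nonneg_right (le_max_left _ _) hd.le) hx
  have hx2 : 2 ^ 27 * x0 * (S * (len N : ℝ) ^ 5) ≤ N :=
    le_trans (mul_le_mul_of_nonneg_right (le_max_right _ _) hd.le) hx
  have hN : 2 ^ 30 * len N ^ 5 ≤ N := by
    have h1 : (2 ^ 30 : ℝ) * (len N : ℝ) ^ 5 ≤ N := by
      refine le_trans ?_ hx1
      have h2 : (len N : ℝ) ^ 5 ≤ S * (len N : ℝ) ^ 5 := le_mul_of_one_le_left (by positivity) hS1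
      calc (2 ^ 30 : ℝ) * (len N : ℝ) ^ 5 ≤ 2 ^ 54 * (len N : ℝ) ^ 5 :=
            mul_le_mul_of_nonneg_right (by norm_num) (by positivity)
        _ ≤ _ := mul_le_mul_of_nonneg_left h2 (by norm_num)
    exact_mod_cast h1
  obtain ⟨n, hn⟩ : ∃ n, n = N / (2 ^ 26 * len N ^ 5) := ⟨_, rfl⟩
  obtain ⟨hn8, hG⟩ := params_n hN hn
  have hn1 : 1 ≤ n := by
    rw [hn, Nat.le_div_iff_mul_le (by have := len_pos N; positivity)]
    calc 1 * (2 ^ 26 * len N ^ 5) ≤ 2 ^ 30 * len N ^ 5 := by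
          rw [one_mul]
          exact Nat.mul_le_mul_right _ (by norm_num)
      _ ≤ N := hN
  have hn16 : 16 * n ≤ nc N := by
    refine le_trans ?_ hG
    have h1 : 1 ≤ (Nat.log 2 n + 2) ^ 3 := Nat.one_le_pow _ _ (by omega)
    calc 16 * n ≤ 12 * (2 ^ 20 * 1 * n) := by omega
      _ ≤ 12 * (2 ^ 20 * (Nat.log 2 n + 2) ^ 3 * n) :=
        Nat.mul_le_mul_left _ (Nat.mul_le_mul_right _ (Nat.mul_le_mul_left _ h1))
  -- the size of the blocks
  have hnu : (2 ^ 26 * len N ^ 5 : ℝ) * n ≤ N := by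
    have h1 : 2 ^ 26 * len N ^ 5 * n ≤ N := by
      rw [hn, mul_comm]
      exact Nat.div_mul_le_self _ _
    exact_mod_cast h1
  have hnl : (N : ℝ) ≤ 2 ^ 27 * (len N : ℝ) ^ 5 * n := by
    have h1 : N < 2 ^ 26 * len N ^ 5 * (n + 1) := by
      rw [hn]
      exact Nat.lt_mul_div_succ _ (by have := len_pos N; positivity)
    have h2 : 2 ^ 26 * len N ^ 5 * (n + 1) ≤ 2 ^ 27 * len N ^ 5 * n := by
      calc 2 ^ 26 * len N ^ 5 * (n + 1) ≤ 2 ^ 26 * len N ^ 5 * (2 * n) := Nat.mul_le_mul_left _ (by omega)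
        _ = 2 ^ 27 * len N ^ 5 * n := by ring
    have h3 : N ≤ 2 ^ 27 * len N ^ 5 * n := by omega
    exact_mod_cast h3
  have hxS : x0 * S ≤ n := by
    have h1 : 2 ^ 27 * (len N : ℝ) ^ 5 * (x0 * S) ≤ 2 ^ 27 * (len N : ℝ) ^ 5 * n := by
      calc (2 : ℝ) ^ 27 * (len N : ℝ) ^ 5 * (x0 * S) = 2 ^ 27 * x0 * (S * (len N : ℝ) ^ 5) := by ring
        _ ≤ (N : ℝ) := hx2
        _ ≤ _ := hnl
    exact le_of_mul_le_mul_left h1 (by positivity)
  have key := h L hL N n _ S η hS hxS hn16 hG hη (fun e he h8 h4 => existsCmp n e he h8 h4)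
    ι w V Γ P rej hw0 hw1 hP T hT
  refine le_trans ?_ key
  obtain ⟨r, hr⟩ : ∃ r : ℝ, r = N / (S * (len N : ℝ) ^ 5) := ⟨_, rfl⟩
  obtain ⟨q, hq⟩ : ∃ q : ℝ, q = n / S := ⟨_, rfl⟩
  rw [← hr, ← hq]
  have hqr : 2 ^ 26 * q ≤ r := by
    rw [hr, hq, le_div_iff₀ hd]
    calc (2 : ℝ) ^ 26 * ((n : ℝ) / S) * (S * (len N : ℝ) ^ 5) = 2 ^ 26 * (len N : ℝ) ^ 5 * n := by
          field_simp
      _ ≤ (N : ℝ) := hnu
  have hrq : r ≤ 2 ^ 27 * q := by
    rw [hr, hq, div_le_iff₀ hd]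
    calc (N : ℝ) ≤ 2 ^ 27 * (len N : ℝ) ^ 5 * n := hnl
      _ = 2 ^ 27 * ((n : ℝ) / S) * (S * (len N : ℝ) ^ 5) := by field_simp
  have hr54 : 2 ^ 54 ≤ r := by
    rw [hr, le_div_iff₀ hd]
    exact hx1
  have hq27 : 2 ^ 27 ≤ q := by linarith
  have he : Real.exp 8 ≤ 2 ^ 27 := by
    have h1 : Real.exp 8 = Real.exp 1 ^ 8 := by rw [← Real.exp_nat_mul]; norm_num
    rw [h1]
    calc Real.exp 1 ^ 8 ≤ 3 ^ 8 :=
          pow_le_pow_left₀ (Real.exp_pos _).le (by have := Real.exp_one_lt_d9; linarith) 8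
      _ ≤ 2 ^ 27 := by norm_num
  have h1 := log_tr (q := q) (r := r) hc.le (a := η * N) (by positivity) (by linarith) (by linarith)
    (hrq.trans (by nlinarith))
  calc c / 2 * η * N * Real.log r / Real.log (Real.log r) =
        c / 2 * (η * N) * Real.log r / Real.log (Real.log r) := by ring
    _ ≤ c * (η * N) * Real.log q / Real.log (Real.log q) := h1
    _ = c * η * N * Real.log q / Real.log (Real.log q) := by ring

/-- **One pair of constants for all languages.** -/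
theorem hard_all : ∃ c x0 : ℝ, 0 < c ∧ 1 ≤ x0 ∧ ∀ L : List Bool → Prop, Agrees L ∨ AgreesH L →
    Hard c x0 L := by
  obtain ⟨c, x, hc, hx, h⟩ := hard_circ
  obtain ⟨c', x', hc', hx', h'⟩ := hard_horn
  refine ⟨min c c', max (max x x') (Real.exp (Real.exp 1)), lt_min hc hc',
    le_max_of_le_left (le_max_of_le_left hx), ?_⟩
  rintro L (hL | hL)
  · exact (h L hL).mono (min_le_left _ _) (le_max_of_le_left (le_max_left _ _)) (le_max_right _ _)
  · exact (h' L hL).mono (min_le_right _ _) (le_max_of_le_left (le_max_right _ _)) (le_max_right _ _)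

end Pool.Agent.KST
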