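import Pool.Agent.KST.Circ
import Pool.Agent.KST.Horn
import Pool.Agent.KCV.Circ
import Pool.Agent.KCV.Val

/-! Horn clauses that force the values of all gates of a circuit, with two variables for every gate. -/

namespace Pool.Agent.KST

open Finset Pool.Agent.KCV Pool.Agent.KH
open Pool.Agent.KE (zb)

/-- functions are determined by equations that express every value by earlier values -/
theorem exists_val {s : (ℕ → Bool) → ℕ → Bool}
    (hs : ∀ i a b, (∀ j < i, a j = b j) → s a i = s b i) : ∃ v : ℕ → Bool, ∀ i, v i = s v i := by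
  obtain ⟨u, hu⟩ : ∃ u : ℕ → ℕ → Bool, u = fun k => s^[k] fun _ => false := ⟨_, rfl⟩
  have h1 : ∀ k i, u (k + 1) i = s (u k) i := by
    intro k i
    rw [hu]
    simp only
    rw [Function.iterate_succ_apply']
  have h2 : ∀ i k, i < k → u k i = u (i + 1) i := by
    intro i
    induction i using Nat.strong_induction_on with
    | _ i ih =>
      intro k hk
      obtain ⟨k, rfl⟩ : ∃ k', k = k' + 1 := ⟨k - 1, by omega⟩
      rw [h1, h1]
      refine hs i _ _ fun j hj => ?_
      rw [ih j hj k (by omega), ih j hj i hj]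
  refine ⟨fun i => u (i + 1) i, fun i => ?_⟩
  simp only
  rw [h1]
  exact hs i _ _ fun j hj => h2 j i hj

/-- one positive literal -/
def pcl (a : ℕ) : Cl := ((true, a), (true, a), (true, a))

/-- one negative literal -/
def ncl (a : ℕ) : Cl := ((false, a), (false, a), (false, a))

/-- an implication -/
def icl (a b : ℕ) : Cl := ((false, a), (true, b), (true, b))

/-- an implication with two premises -/
def jcl (a a' b : ℕ) : Cl := ((false, a), (false, a'), (true, b))

/-- Horn clauses -/
def hcl (C : Cl) : Prop := (∃ a, C = pcl a) ∨ (∃ a, C = ncl a) ∨ (∃ a b, C = icl a b) ∨ ∃ a a' b, C = jcl a a' b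

theorem cs_pcl {x : ℕ → Bool} {a : ℕ} : cs x (pcl a) ↔ x a = true := by
  unfold cs pcl
  simp

theorem cs_ncl {x : ℕ → Bool} {a : ℕ} : cs x (ncl a) ↔ x a = false := by
  unfold cs ncl
  simp

theorem cs_icl {x : ℕ → Bool} {a b : ℕ} : cs x (icl a b) ↔ (x a = true → x b = true) := by
  unfold cs icl
  cases x a <;> cases x b <;> simp

theorem cs_jcl {x : ℕ → Bool} {a a' b : ℕ} : cs x (jcl a a' b) ↔ (x a = true → x a' = true → x b = true) := by
  unfold cs jcl
  cases x a <;> cases x a' <;> cases x b <;> simp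

/-- the parameters -/
structure Hp where
  /-- the number of digits of data in a clause -/
  h : ℕ
  /-- the number of rows of data -/
  B : ℕ
  /-- the number of variables -/
  n : ℕ
  /-- the number of gates of the straight line program -/
  G : ℕ
  /-- the pointers of the straight line program -/
  Q : ℕ → ℕ × ℕ
  /-- the output -/
  o : ℕ

namespace Hp

variable (c : Hp)

/-- the first gate of the straight line program -/
def F : ℕ := 3 + 2 * (c.B * c.n)

/-- the variable that says that the gate `p` has the value `b` -/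
def rl (b : Bool) (p : ℕ) : ℕ := 2 ^ c.h + 2 ^ c.h + (2 * p + if b = true then 0 else 1)

/-- the accumulator before the data gate `k` -/
def ac (k : ℕ) : ℕ := if k < c.n then 2 else 3 + 2 * (k - c.n) + 1

/-- the parameters are consistent -/
structure Ok : Prop where
  hB : 1 ≤ c.B
  hn : 1 ≤ c.n
  hQ : ∀ i < c.G, (c.Q i).1 < c.F + i ∧ (c.Q i).2 < c.F + i
  ho : c.o < c.F + c.G

/-- clause `s` of the two clauses with the data `D k` -/
def wc (D : ℕ → ℕ → Bool) (k s : ℕ) : Cl :=
  if s = 0 then icl (dig c.h (D k)) (c.rl true (3 + 2 * k))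
  else icl (2 ^ c.h + dig c.h (D k)) (c.rl false (3 + 2 * k))

/-- the table -/
def tb (j : ℕ) : Cl := pcl (if par c.h j = true then j else 2 ^ c.h + j)

/-- the clauses of an accumulator -/
def xc (k : ℕ) : List Cl :=
  [jcl (c.rl true (c.ac k)) (c.rl true (3 + 2 * k)) (c.rl false (3 + 2 * k + 1)),
    jcl (c.rl true (c.ac k)) (c.rl false (3 + 2 * k)) (c.rl true (3 + 2 * k + 1)),
    jcl (c.rl false (c.ac k)) (c.rl true (3 + 2 * k)) (c.rl true (3 + 2 * k + 1)),
    jcl (c.rl false (c.ac k)) (c.rl false (3 + 2 * k)) (c.rl false (3 + 2 * k + 1))]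

/-- the clauses of a gate -/
def gc (i : ℕ) : List Cl :=
  [jcl (c.rl true (c.Q i).1) (c.rl true (c.Q i).2) (c.rl false (c.F + i)),
    icl (c.rl false (c.Q i).1) (c.rl true (c.F + i)),
    icl (c.rl false (c.Q i).2) (c.rl true (c.F + i))]

/-- all clauses without data -/
def R : List Cl :=
  pcl (c.rl true 0) :: pcl (c.rl true 1) :: pcl (c.rl false 2) :: ncl (c.rl false c.o) ::
    ((List.range (2 ^ c.h)).map c.tb ++ (List.range (c.B * c.n)).flatMap c.xc ++
      (List.range c.G).flatMap c.gc)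

theorem length_R : c.R.length = 4 + 2 ^ c.h + 4 * (c.B * c.n) + 3 * c.G := by
  have h1 : ((List.range (c.B * c.n)).flatMap c.xc).length = 4 * (c.B * c.n) := by
    rw [List.length_flatMap]
    simp [xc, mul_comm]
  have h2 : ((List.range c.G).flatMap c.gc).length = 3 * c.G := by
    rw [List.length_flatMap]
    simp [gc, mul_comm]
  unfold R
  rw [List.length_cons, List.length_cons, List.length_cons, List.length_cons, List.length_append,
    List.length_append, h1, h2, List.length_map, List.length_range]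
  omega

/-- all conditions -/
theorem forall_R {p : Cl → Prop} : (∀ C ∈ c.R, p C) ↔
    p (pcl (c.rl true 0)) ∧ p (pcl (c.rl true 1)) ∧ p (pcl (c.rl false 2)) ∧ p (ncl (c.rl false c.o)) ∧
      (∀ j < 2 ^ c.h, p (c.tb j)) ∧ (∀ k < c.B * c.n, ∀ C ∈ c.xc k, p C) ∧
      ∀ i < c.G, ∀ C ∈ c.gc i, p C := by
  unfold R
  rw [List.forall_mem_cons, List.forall_mem_cons, List.forall_mem_cons, List.forall_mem_cons]
  refine and_congr Iff.rfl (and_congr Iff.rfl (and_congr Iff.rfl (and_congr Iff.rfl ?_)))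
  constructor
  · intro h
    refine ⟨fun j hj => ?_, fun k hk C hC => ?_, fun i hi C hC => ?_⟩
    · exact h _ (List.mem_append_left _ (List.mem_append_left _
        (List.mem_map_of_mem (List.mem_range.2 hj))))
    · exact h _ (List.mem_append_left _ (List.mem_append_right _
        (List.mem_flatMap.2 ⟨k, List.mem_range.2 hk, hC⟩)))
    · exact h _ (List.mem_append_right _ (List.mem_flatMap.2 ⟨i, List.mem_range.2 hi, hC⟩))
  · rintro ⟨h1, h2, h3⟩ C hC
    rcases List.mem_append.1 hC with hC | hC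
    · rcases List.mem_append.1 hC with hC | hC
      · obtain ⟨j, hj, rfl⟩ := List.mem_map.1 hC
        exact h1 j (List.mem_range.1 hj)
      · obtain ⟨k, hk, hC⟩ := List.mem_flatMap.1 hC
        exact h2 k (List.mem_range.1 hk) C hC
    · obtain ⟨i, hi, hC⟩ := List.mem_flatMap.1 hC
      exact h3 i (List.mem_range.1 hi) C hC

theorem hcl_R : ∀ C ∈ c.R, hcl C := by
  rw [forall_R]
  refine ⟨Or.inl ⟨_, rfl⟩, Or.inl ⟨_, rfl⟩, Or.inl ⟨_, rfl⟩, Or.inr (Or.inl ⟨_, rfl⟩),
    fun j _ => Or.inl ⟨_, rfl⟩, fun k _ => ?_, fun i _ => ?_⟩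
  · unfold xc
    simp only [List.forall_mem_cons, List.not_mem_nil, false_imp_iff, implies_true, and_true]
    exact ⟨Or.inr (Or.inr (Or.inr ⟨_, _, _, rfl⟩)), Or.inr (Or.inr (Or.inr ⟨_, _, _, rfl⟩)),
      Or.inr (Or.inr (Or.inr ⟨_, _, _, rfl⟩)), Or.inr (Or.inr (Or.inr ⟨_, _, _, rfl⟩))⟩
  · unfold gc
    simp only [List.forall_mem_cons, List.not_mem_nil, false_imp_iff, implies_true, and_true]
    exact ⟨Or.inr (Or.inr (Or.inr ⟨_, _, _, rfl⟩)), Or.inr (Or.inr (Or.inl ⟨_, _, rfl⟩)),
      Or.inr (Or.inr (Or.inl ⟨_, _, rfl⟩))⟩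

theorem hcl_wc (D : ℕ → ℕ → Bool) (k s : ℕ) : hcl (c.wc D k s) := by
  unfold wc
  split_ifs
  · exact Or.inr (Or.inr (Or.inl ⟨_, _, rfl⟩))
  · exact Or.inr (Or.inr (Or.inl ⟨_, _, rfl⟩))

theorem cs_xc {x : ℕ → Bool} {k : ℕ} : (∀ C ∈ c.xc k, cs x C) ↔
    (x (c.rl true (c.ac k)) = true → x (c.rl true (3 + 2 * k)) = true → x (c.rl false (3 + 2 * k + 1)) = true) ∧
    (x (c.rl true (c.ac k)) = true → x (c.rl false (3 + 2 * k)) = true → x (c.rl true (3 + 2 * k + 1)) = true) ∧
    (x (c.rl false (c.ac k)) = true → x (c.rl true (3 + 2 * k)) = true → x (c.rl true (3 + 2 * k + 1)) = true) ∧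
    (x (c.rl false (c.ac k)) = true → x (c.rl false (3 + 2 * k)) = true →
      x (c.rl false (3 + 2 * k + 1)) = true) := by
  unfold xc
  simp only [List.forall_mem_cons, List.not_mem_nil, false_imp_iff, implies_true, and_true, cs_jcl]

theorem cs_gc {x : ℕ → Bool} {i : ℕ} : (∀ C ∈ c.gc i, cs x C) ↔
    (x (c.rl true (c.Q i).1) = true → x (c.rl true (c.Q i).2) = true → x (c.rl false (c.F + i)) = true) ∧
    (x (c.rl false (c.Q i).1) = true → x (c.rl true (c.F + i)) = true) ∧
    (x (c.rl false (c.Q i).2) = true → x (c.rl true (c.F + i)) = true) := by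
  unfold gc
  simp only [List.forall_mem_cons, List.not_mem_nil, false_imp_iff, implies_true, and_true, cs_jcl, cs_icl]

/-- the values of the gates -/
def IsV (D : ℕ → ℕ → Bool) (v : ℕ → Bool) : Prop :=
  v 0 = true ∧ v 1 = true ∧ v 2 = false ∧ (∀ k < c.B * c.n, v (3 + 2 * k) = decide (∑ r ∈ range c.h, zb (D k r) = 1) ∧
    v (3 + 2 * k + 1) = xor (v (c.ac k)) (v (3 + 2 * k))) ∧
    ∀ i < c.G, v (c.F + i) = !(v (c.Q i).1 && v (c.Q i).2)

theorem ac_lt (hc : c.Ok) {k : ℕ} : c.ac k < 3 + 2 * k := by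
  have := hc.hn
  unfold ac
  split_ifs <;> omega

theorem exists_isV (hc : c.Ok) (D : ℕ → ℕ → Bool) : ∃ v, c.IsV D v := by
  obtain ⟨v, hv⟩ := exists_val (s := fun a i =>
    if i < 2 then true else if i < 3 then false
    else if i < c.F then
      if (i - 3) % 2 = 0 then decide (∑ r ∈ range c.h, zb (D ((i - 3) / 2) r) = 1)
      else xor (a (c.ac ((i - 3) / 2))) (a (3 + 2 * ((i - 3) / 2)))
    else if i < c.F + c.G then !(a (c.Q (i - c.F)).1 && a (c.Q (i - c.F)).2) else false) (by
      intro i a b hab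
      split_ifs with h1 h2 h3 h4 h5
      · rfl
      · rfl
      · rfl
      · have h6 := c.ac_lt hc (k := (i - 3) / 2)
        rw [hab _ (by omega), hab (3 + 2 * ((i - 3) / 2)) (by omega)]
      · have h6 := hc.hQ (i - c.F) (by omega)
        rw [hab _ (by omega), hab (c.Q (i - c.F)).2 (by omega)]
      · rfl)
  have hF : c.F = 3 + 2 * (c.B * c.n) := rfl
  refine ⟨v, ?_, ?_, ?_, fun k hk => ⟨?_, ?_⟩, fun i hi => ?_⟩
  · rw [hv]
    simp
  · rw [hv]
    simp
  · rw [hv]
    simp
  · rw [hv]
    rw [if_neg (by omega), if_neg (by omega), if_pos (by omega), if_pos (by omega),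
      show (3 + 2 * k - 3) / 2 = k by omega]
  · rw [hv]
    rw [if_neg (by omega), if_neg (by omega), if_pos (by omega), if_neg (by omega),
      show (3 + 2 * k + 1 - 3) / 2 = k by omega]
  · rw [hv]
    rw [if_neg (by omega), if_neg (by omega), if_neg (by omega), if_pos (by omega), Nat.add_sub_cancel_left]

/-- the clauses force the values -/
theorem forced (hc : c.Ok) {D : ℕ → ℕ → Bool} {v : ℕ → Bool} (hv : c.IsV D v) {x : ℕ → Bool}
    (hw : ∀ k < c.B * c.n, cs x (c.wc D k 0) ∧ cs x (c.wc D k 1)) (hR : ∀ C ∈ c.R, cs x C) :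
    v c.o = true := by
  obtain ⟨v0, v1, v2, v3, v4⟩ := hv
  rw [forall_R] at hR
  obtain ⟨r0, r1, r2, r3, r4, r5, r6⟩ := hR
  rw [cs_pcl] at r0 r1 r2
  rw [cs_ncl] at r3
  have hF : c.F = 3 + 2 * (c.B * c.n) := rfl
  have key : ∀ p, p < c.F + c.G → x (c.rl (v p) p) = true := by
    intro p
    induction p using Nat.strong_induction_on with
    | _ p ih =>
      intro h2
      by_cases e0 : p = 0
      · rw [e0, v0]
        exact r0
      by_cases e1 : p = 1
      · rw [e1, v1]
        exact r1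
      by_cases e2 : p = 2
      · rw [e2, v2]
        exact r2
      by_cases e3 : p < c.F
      · obtain ⟨k, hk⟩ : ∃ k, k = (p - 3) / 2 := ⟨_, rfl⟩
        have hkB : k < c.B * c.n := by omega
        obtain ⟨w0, w1⟩ := hw k hkB
        by_cases e4 : (p - 3) % 2 = 0
        · obtain rfl : p = 3 + 2 * k := by omega
          have hd := dig_lt c.h (D k)
          have ht := r4 _ hd
          unfold tb at ht
          rw [cs_pcl] at ht
          have hpar : par c.h (dig c.h (D k)) = v (3 + 2 * k) := by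
            rw [(v3 k hkB).1]
            unfold par
            congr 2
            refine Finset.sum_congr rfl fun r hr => ?_
            rw [testBit_dig (mem_range.1 hr)]
          rw [hpar] at ht
          unfold wc at w0 w1
          rw [if_pos rfl, cs_icl] at w0
          rw [if_neg one_ne_zero, cs_icl] at w1
          cases hvp : v (3 + 2 * k)
          · rw [hvp, if_neg Bool.false_ne_true] at ht
            exact w1 ht
          · rw [hvp, if_pos rfl] at ht
            exact w0 ht
        · obtain rfl : p = 3 + 2 * k + 1 := by omega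
          have ha := c.ac_lt hc (k := k)
          have i1 := ih (c.ac k) (by omega) (by omega)
          have i2 := ih (3 + 2 * k) (by omega) (by omega)
          obtain ⟨x1, x2, x3, x4⟩ := (c.cs_xc).1 (r5 k hkB)
          rw [(v3 k hkB).2]
          cases ea : v (c.ac k) <;> cases eb : v (3 + 2 * k) <;> rw [ea] at i1 <;> rw [eb] at i2
          · exact x4 i1 i2
          · exact x3 i1 i2
          · exact x2 i1 i2
          · exact x1 i1 i2
      · obtain ⟨i, rfl⟩ : ∃ i, p = c.F + i := ⟨p - c.F, by omega⟩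
        have hi : i < c.G := by omega
        have hQ := hc.hQ i hi
        obtain ⟨g1, g2, g3⟩ := (c.cs_gc).1 (r6 i hi)
        have i1 := ih _ hQ.1 (by omega)
        have i2 := ih _ hQ.2 (by omega)
        rw [v4 i hi]
        cases ea : v (c.Q i).1 <;> cases eb : v (c.Q i).2 <;> rw [ea] at i1 <;> rw [eb] at i2
        · exact g2 i1
        · exact g2 i1
        · exact g3 i2
        · exact g1 i1 i2
  by_contra ho
  rw [Bool.not_eq_true] at ho
  have h1 := key c.o hc.ho
  rw [ho, r3] at h1
  exact Bool.false_ne_true h1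

/-- the assignment that belongs to the values -/
def asg (v : ℕ → Bool) (w : ℕ) : Bool :=
  if w < 2 ^ c.h then par c.h w
  else if w < 2 ^ c.h + 2 ^ c.h then !(par c.h (w - 2 ^ c.h))
  else if (w - (2 ^ c.h + 2 ^ c.h)) % 2 = 0 then v ((w - (2 ^ c.h + 2 ^ c.h)) / 2)
  else !(v ((w - (2 ^ c.h + 2 ^ c.h)) / 2))

theorem asg_true (v : ℕ → Bool) (p : ℕ) : c.asg v (c.rl true p) = v p := by
  have hp : 0 < 2 ^ c.h := by positivity
  unfold asg rl
  rw [if_pos rfl, if_neg (by omega), if_neg (by omega), if_pos (by omega)]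
  congr 1
  omega

theorem asg_false (v : ℕ → Bool) (p : ℕ) : c.asg v (c.rl false p) = !(v p) := by
  have hp : 0 < 2 ^ c.h := by positivity
  unfold asg rl
  rw [if_neg Bool.false_ne_true, if_neg (by omega), if_neg (by omega), if_neg (by omega)]
  congr 2
  omega

theorem asg_tab {v : ℕ → Bool} {j : ℕ} (hj : j < 2 ^ c.h) : c.asg v j = par c.h j ∧
    c.asg v (2 ^ c.h + j) = !(par c.h j) := by
  unfold asg
  constructor
  · rw [if_pos hj]
  · rw [if_neg (by omega), if_pos (by omega), Nat.add_sub_cancel_left]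

/-- the assignment satisfies all clauses -/
theorem asg_sat {D : ℕ → ℕ → Bool} {v : ℕ → Bool} (hv : c.IsV D v) (ho : v c.o = true) :
    (∀ k < c.B * c.n, cs (c.asg v) (c.wc D k 0) ∧ cs (c.asg v) (c.wc D k 1)) ∧
      ∀ C ∈ c.R, cs (c.asg v) C := by
  obtain ⟨v0, v1, v2, v3, v4⟩ := hv
  have hpar : ∀ k < c.B * c.n, par c.h (dig c.h (D k)) = v (3 + 2 * k) := by
    intro k hk
    rw [(v3 k hk).1]
    unfold par
    congr 2
    refine Finset.sum_congr rfl fun r hr => ?_
    rw [testBit_dig (mem_range.1 hr)]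
  refine ⟨fun k hk => ?_, ?_⟩
  · obtain ⟨h1, h2⟩ := c.asg_tab (v := v) (dig_lt c.h (D k))
    unfold wc
    rw [if_pos rfl, if_neg one_ne_zero, cs_icl, cs_icl, h1, h2, asg_true, asg_false, hpar k hk]
    exact ⟨fun h => h, fun h => h⟩
  · rw [forall_R, cs_pcl, cs_pcl, cs_pcl, cs_ncl, asg_true, asg_true, asg_false, asg_false, v0, v1, v2, ho]
    refine ⟨rfl, rfl, rfl, rfl, fun j hj => ?_, fun k hk => ?_, fun i hi => ?_⟩
    · obtain ⟨h1, h2⟩ := c.asg_tab (v := v) hj
      unfold tb
      rw [cs_pcl]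
      by_cases h : par c.h j = true
      · rw [if_pos h, h1, h]
      · rw [if_neg h, h2]
        rw [Bool.not_eq_true] at h
        rw [h]
        rfl
    · rw [cs_xc]
      simp only [asg_true, asg_false]
      rw [(v3 k hk).2]
      generalize v (c.ac k) = a
      generalize v (3 + 2 * k) = b
      revert a b
      decide
    · rw [cs_gc]
      simp only [asg_true, asg_false]
      rw [v4 i hi]
      generalize v (c.Q i).1 = a
      generalize v (c.Q i).2 = b
      revert a b
      decide

/-- the accumulators -/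
theorem v_acc (hc : c.Ok) {D : ℕ → ℕ → Bool} {v : ℕ → Bool} (hv : c.IsV D v) {l : ℕ} (hl : l < c.n)
    {b : ℕ} (hb : b < c.B) : v (3 + 2 * (b * c.n + l) + 1) =
      decide (∑ b' ∈ range (b + 1), ∑ r ∈ range c.h, zb (D (b' * c.n + l) r) = 1) := by
  obtain ⟨v0, v1, v2, v3, v4⟩ := hv
  have hx : ∀ x y : ZMod 2, xor (decide (x = 1)) (decide (y = 1)) = decide (x + y = 1) := by decide
  have hn := hc.hn
  induction b with
  | zero =>
    have hk : 0 * c.n + l < c.B * c.n := row_lt hb hl
    rw [(v3 _ hk).2, (v3 _ hk).1]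
    unfold ac
    rw [if_pos (by omega), v2, Bool.false_xor, zero_add, Finset.sum_range_one]
  | succ b ih =>
    have hk : (b + 1) * c.n + l < c.B * c.n := row_lt hb hl
    have h1 : c.ac ((b + 1) * c.n + l) = 3 + 2 * (b * c.n + l) + 1 := by
      have h2 : (b + 1) * c.n + l = b * c.n + l + c.n := by ring
      unfold ac
      rw [h2, if_neg (by omega), Nat.add_sub_cancel]
    rw [(v3 _ hk).2, (v3 _ hk).1, h1, ih (by omega), hx, Finset.sum_range_succ _ (b + 1)]

end Hp

end Pool.Agent.KST
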