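import Pool.Agent.KST.Enc
import Pool.Agent.KST.Horn

/-! Unit propagation. -/

namespace Pool.Agent.KST

open Finset Pool.Agent.KCV

/-- a clause implies that the variable `v` is true if the variables in `a` are true -/
def Trig (y : List Bool) (a : ℕ → Bool) (v : ℕ) : Prop :=
  ∃ c < nc y.length, ∃ j < 3, (sgn y (3 * c + j) = true ∧ var y (3 * c + j) = v) ∧
    ∀ j' < 3, ¬ (sgn y (3 * c + j') = false ∧ a (var y (3 * c + j')) = false)

open Classical in
/-- one round of unit propagation -/
noncomputable def up (y : List Bool) (a : ℕ → Bool) (v : ℕ) : Bool := decide (a v = true ∨ Trig y a v)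

/-- the variables found in `t` rounds -/
noncomputable def ups (y : List Bool) (t : ℕ) : ℕ → Bool := (up y)^[t] fun _ => false

theorem ups_succ (y : List Bool) (t : ℕ) : ups y (t + 1) = up y (ups y t) :=
  Function.iterate_succ_apply' _ _ _

theorem up_iff {y : List Bool} {a : ℕ → Bool} {v : ℕ} : up y a v = true ↔ a v = true ∨ Trig y a v := by
  classical
  unfold up
  rw [decide_eq_true_iff]

theorem ups_lt {y : List Bool} {t v : ℕ} (h : ups y t v = true) : v < 2 ^ len y.length := by
  induction t with
  | zero => exact absurd h (by simp [ups])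
  | succ t ih =>
    rw [ups_succ, up_iff] at h
    rcases h with h | ⟨c, _, j, _, ⟨_, h⟩, _⟩
    · exact ih h
    · rw [← h]
      exact ptr_lt _ _

/-- the propagation stops -/
theorem ups_fix (y : List Bool) : ups y (2 ^ len y.length + 1) = ups y (2 ^ len y.length) := by
  classical
  obtain ⟨V, hV⟩ : ∃ V, V = 2 ^ len y.length := ⟨_, rfl⟩
  rw [← hV]
  by_contra hcon
  have hne : ∀ t ≤ V, ups y (t + 1) ≠ ups y t := by
    intro t ht heq
    apply hcon
    have key : ∀ s, ups y (t + s) = ups y t := by
      intro s
      induction s with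
      | zero => rfl
      | succ s ih =>
        rw [← add_assoc, ups_succ, ih, ← ups_succ, heq]
    have h1 := key (V - t)
    have h2 := key (V - t + 1)
    rw [Nat.add_sub_cancel' ht] at h1
    rw [← add_assoc, Nat.add_sub_cancel' ht] at h2
    rw [h1, h2]
  obtain ⟨F, hF⟩ : ∃ F : ℕ → Finset ℕ, F = fun t => (range V).filter fun v => ups y t v = true := ⟨_, rfl⟩
  have hsub : ∀ t, F t ⊆ F (t + 1) := by
    intro t v hv
    rw [hF] at hv ⊢
    obtain ⟨h1, h2⟩ := Finset.mem_filter.1 hv
    refine Finset.mem_filter.2 ⟨h1, ?_⟩
    rw [ups_succ, up_iff]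
    exact Or.inl h2
  have hcard : ∀ t ≤ V + 1, t ≤ (F t).card := by
    intro t
    induction t with
    | zero => intro _; exact Nat.zero_le _
    | succ t ih =>
      intro ht
      have h1 := ih (by omega)
      have h2 : F t ≠ F (t + 1) := by
        intro heq
        apply hne t (by omega)
        funext v
        have h3 : v ∈ F t ↔ v ∈ F (t + 1) := by rw [heq]
        rw [hF] at h3
        simp only [Finset.mem_filter, Finset.mem_range] at h3
        cases h4 : ups y t v
        · cases h5 : ups y (t + 1) v
          · rfl
          · have h6 := ups_lt h5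
            rw [← hV] at h6
            have := (h3.2 ⟨h6, h5⟩).2
            rw [h4] at this
            exact this.symm
        · have h6 := ups_lt h4
          rw [← hV] at h6
          rw [(h3.1 ⟨h6, h4⟩).2]
      have h3 := Finset.card_lt_card (Finset.ssubset_iff_subset_ne.2 ⟨hsub t, h2⟩)
      omega
  have h1 := hcard (V + 1) le_rfl
  have h2 : (F (V + 1)).card ≤ V := by
    rw [hF]
    calc _ ≤ (range V).card := Finset.card_filter_le _ _
      _ = V := card_range V
  omega

/-- **Unit propagation.** -/
theorem horn_iff {y : List Bool} (hy : Horn y) : Sat3 y ↔ Sats y (ups y (2 ^ len y.length)) := by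
  constructor
  · rintro ⟨x, hx⟩
    have hle : ∀ t v, ups y t v = true → x v = true := by
      intro t
      induction t with
      | zero => intro v h; exact absurd h (by simp [ups])
      | succ t ih =>
        intro v h
        rw [ups_succ, up_iff] at h
        rcases h with h | ⟨c, hc, j, hj, ⟨h1, h2⟩, h3⟩
        · exact ih v h
        · obtain ⟨i, hi, h4⟩ := hx c hc
          cases h5 : sgn y (3 * c + i)
          · have h6 : ups y t (var y (3 * c + i)) = true := by
              cases h7 : ups y t (var y (3 * c + i))
              · exact absurd ⟨h5, h7⟩ (h3 i hi)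
              · rfl
            rw [ih _ h6, h5] at h4
            exact absurd h4 (by decide)
          · rw [← h2, hy c hc j hj i hi h1 h5, h4, h5]
    intro c hc
    by_contra hcon
    push Not at hcon
    obtain ⟨i, hi, h4⟩ := hx c hc
    have h3 : ∀ j' < 3, ¬ (sgn y (3 * c + j') = false ∧
        ups y (2 ^ len y.length) (var y (3 * c + j')) = false) := by
      rintro j' hj' ⟨h5, h6⟩
      exact hcon j' hj' (h6.trans h5.symm)
    cases h5 : sgn y (3 * c + i)
    · have h6 : ups y (2 ^ len y.length) (var y (3 * c + i)) = true := by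
        cases h7 : ups y (2 ^ len y.length) (var y (3 * c + i))
        · exact absurd ⟨h5, h7⟩ (h3 i hi)
        · rfl
      rw [hle _ _ h6, h5] at h4
      exact absurd h4 (by decide)
    · apply hcon i hi
      rw [h5, ← ups_fix, ups_succ, up_iff]
      exact Or.inr ⟨c, hc, i, hi, ⟨h5, rfl⟩, h3⟩
  · intro h
    exact ⟨_, h⟩

end Pool.Agent.KST
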